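import Mathlib
import Pool.Agent.Run7.h16.AB.Final
import Pool.Agent.W527.FrobMild
import Pool.Agent.Y137.MV.Defs

/-!
# Maximal angle rank from the freeness of the slopes
-/

set_option linter.unusedSectionVars false
set_option linter.unusedVariables false

namespace Run7.h16.MA

open NumberField Module Pool.Agent.H204R3.CM Pool.Agent.H977R3.WN Pool.Agent.H485R3.Exact
  Pool.Agent.W527 Run7.h16.AB Pool.Agent.Y137.MV
open scoped IsMulCommutative

noncomputable section

variable {p : ℕ} [hp : Fact p.Prime] {a : ℕ} {I : Type} [Fintype I] {K : I → Type}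
  [∀ i, Field (K i)] [∀ i, NumberField (K i)] [∀ i, IsCMField (K i)] {π : ∀ i, K i}

theorem angle_of_free (hweil : ∀ i, ∀ φ : K i →+* ℂ, ‖φ (π i)‖ ^ 2 = (p : ℝ) ^ a)
    {D : I → ℕ} (hD : ∀ i, 0 < D i) {u : ∀ i, (K i →+* PadicAlgCl p) → ℤ}
    (hu : ∀ i, ∀ τ : K i →+* PadicAlgCl p,
      2 * (- Real.logb p ‖τ (π i)‖) - a = (((D i : ℚ)⁻¹ : ℚ) : ℝ) * u i τ)
    {L : Type} [Field L] [NumberField L] [IsGalois ℚ L] (j : L →+* ℂ)
    (h : ∀ i, ∀ ψ : K i →+* ℂ, ∃ φ : K i →+* L, j.comp φ = ψ) (jp : L →+* PadicAlgCl p)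
    (hfree : Free (F := K) (L := L) (fun i φ => u i (jp.comp φ))) :
    MaximalAngleRank (p ^ a) π := by
  classical
  obtain ⟨κc, hκc⟩ := exists_lift j (starRingAut : ℂ ≃+* ℂ)
  have hκc' : ∀ x, starRingEnd ℂ (j x) = j (κc x) := hκc
  have hκ : ∀ i, ∀ φ : K i →+* L, κc • φ = cbar φ := by
    intro i φ
    apply comp_injective j
    change j.comp (κc • φ) = j.comp (cbar φ)
    rw [comp_cbar]
    exact RingHom.ext fun x => (hκc' (φ x)).symm
  have hp1 : (1 : ℝ) < p := by exact_mod_cast hp.out.one_lt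
  have hlogp : 0 < Real.log p := Real.log_pos hp1
  have hπ0 : ∀ i, π i ≠ 0 := fun i => ne_zero_of_weil (p := p) (m := a) (hweil i)
  intro r n hrel
  -- the relation in `L`
  let N : ∀ i, (K i →+* L) → ℤ := fun i φ => n ⟨i, j.comp φ⟩
  have hL : ∏ i, ∏ φ : K i →+* L, (φ (π i)) ^ N i φ = ((p : L) ^ a) ^ r := by
    apply j.injective
    rw [map_prod]
    have h1 : ∀ i, j (∏ φ : K i →+* L, (φ (π i)) ^ N i φ) =
        ∏ ψ : K i →+* ℂ, (ψ (π i)) ^ n ⟨i, ψ⟩ := by
      intro i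
      rw [map_prod]
      refine Fintype.prod_equiv (embEquiv j (h i)) _ _ fun φ => ?_
      rw [map_zpow₀]
      rfl
    rw [Finset.prod_congr rfl (fun i _ => h1 i), map_zpow₀, map_pow, map_natCast]
    rw [Fintype.prod_sigma] at hrel
    rw [hrel]
    push_cast
    rfl
  -- logarithms
  have hlog : ∀ σ : L ≃ₐ[ℚ] L, ∑ i, ∑ φ : K i →+* L,
      (N i φ : ℝ) * Real.log ‖(jp.comp (σ • φ)) (π i)‖ =
        r * Real.log ‖((p : PadicAlgCl p) ^ a)‖ := by
    intro σ
    have h1 := congrArg (fun x => Real.log ‖jp (σ x)‖) hL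
    rw [map_zpow₀, map_zpow₀, norm_zpow, Real.log_zpow, map_pow, map_pow, map_natCast,
      map_natCast, map_prod, map_prod, _root_.norm_prod, Real.log_prod] at h1
    · rw [← h1]
      refine Finset.sum_congr rfl fun i _ => ?_
      rw [map_prod, map_prod, _root_.norm_prod, Real.log_prod]
      · refine Finset.sum_congr rfl fun φ _ => ?_
        rw [map_zpow₀, map_zpow₀, norm_zpow, Real.log_zpow]
        rfl
      · intro φ _
        exact norm_ne_zero_iff.2 ((map_ne_zero jp).2 ((map_ne_zero σ).2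
          (zpow_ne_zero _ ((map_ne_zero φ).2 (hπ0 i)))))
    · intro i _
      exact norm_ne_zero_iff.2 ((map_ne_zero jp).2 ((map_ne_zero σ).2
        (Finset.prod_ne_zero_iff.2 fun φ _ => zpow_ne_zero _ ((map_ne_zero φ).2 (hπ0 i)))))
  have hone : ∀ i, ∀ τ : K i →+* PadicAlgCl p, Real.log ‖τ (π i)‖ =
      - (Real.log p / 2) * (((D i : ℝ)⁻¹) * u i τ + a) := by
    intro i τ
    have h1 := hu i τ
    rw [Real.logb] at h1
    push_cast at h1
    field_simp at h1
    have h2 : (Real.log p / 2) * (((D i : ℝ)⁻¹) * u i τ) = (Real.log p * u i τ / D i) / 2 := by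
      rw [div_eq_mul_inv (Real.log p * u i τ)]
      ring
    rw [neg_mul, mul_add, h2, ← h1]
    ring
  let S : (L ≃ₐ[ℚ] L) → ℝ := fun σ => ∑ i, ∑ φ : K i →+* L,
    (N i φ : ℝ) * ((D i : ℝ)⁻¹ * u i (jp.comp (σ • φ)))
  let M : ℝ := ∑ i, ∑ φ : K i →+* L, (N i φ : ℝ) * a
  have hS : ∀ σ, - (Real.log p / 2) * (S σ + M) = r * Real.log ‖((p : PadicAlgCl p) ^ a)‖ := by
    intro σ
    rw [← hlog σ]
    simp only [S, M]
    rw [← Finset.sum_add_distrib, Finset.mul_sum]
    refine Finset.sum_congr rfl fun i _ => ?_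
    rw [← Finset.sum_add_distrib, Finset.mul_sum]
    refine Finset.sum_congr rfl fun φ _ => ?_
    rw [hone]
    ring
  have hodd : ∀ i (φ : K i →+* L), u i (jp.comp (cbar φ)) = - u i (jp.comp φ) := by
    intro i φ
    have h1 := anti_of_slopes' (hweil i) (κ := ((D i : ℚ))⁻¹)
      (inv_ne_zero (by exact_mod_cast (hD i).ne')) (hu i) (jp.comp φ)
    exact h1
  have hcomm : ∀ (σ : L ≃ₐ[ℚ] L) i (φ : K i →+* L), σ • cbar φ = cbar (σ • φ) := by
    intro σ i φ
    rfl
  have hSneg : ∀ σ, S (σ * κc) = - S σ := by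
    intro σ
    simp only [S]
    rw [← Finset.sum_neg_distrib]
    refine Finset.sum_congr rfl fun i _ => ?_
    rw [← Finset.sum_neg_distrib]
    refine Finset.sum_congr rfl fun φ _ => ?_
    have h1 : (σ * κc) • φ = cbar (σ • φ) := by
      rw [mul_smul, hκ, hcomm]
    rw [h1, hodd]
    push_cast
    ring
  have hS0 : ∀ σ, S σ = 0 := by
    intro σ
    have h1 := hS σ
    have h2 := hS (σ * κc)
    rw [hSneg, ← h1] at h2
    have h3 : (Real.log p / 2) * (2 * S σ) = 0 := by linarith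
    rcases mul_eq_zero.1 h3 with h4 | h4
    · linarith
    · linarith
  -- the antisymmetric exponents
  let c : ∀ i, (K i →+* L) → ℤ := fun i φ =>
    (∏ k ∈ Finset.univ.erase i, (D k : ℤ)) * (N i φ - N i (cbar φ))
  have hDD : ∀ i, (∏ k ∈ Finset.univ.erase i, (D k : ℝ)) = (∏ k, (D k : ℝ)) * (D i : ℝ)⁻¹ := by
    intro i
    rw [← Finset.mul_prod_erase _ _ (Finset.mem_univ i), mul_comm (D i : ℝ), mul_assoc,
      mul_inv_cancel₀ (by exact_mod_cast (hD i).ne'), mul_one]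
  have key := hfree c (fun i φ => by
      simp only [c, cbar_cbar]
      ring) (fun σ => by
    have h1 : ((∑ i, ∑ φ : (K i →+* L), c i φ * u i (jp.comp (σ • φ)) : ℤ) : ℝ) =
        (∏ k, (D k : ℝ)) * (2 * S σ) := by
      have h2 : ∀ i, ∑ φ : K i →+* L, (N i (cbar φ) : ℝ) * ((D i : ℝ)⁻¹ *
          u i (jp.comp (σ • φ))) = - ∑ φ : K i →+* L, (N i φ : ℝ) * ((D i : ℝ)⁻¹ *
          u i (jp.comp (σ • φ))) := by
        intro i
        rw [← Finset.sum_neg_distrib]
        refine Fintype.sum_equiv (Function.Involutive.toPerm (cbar : (K i →+* L) → (K i →+* L))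
          cbar_cbar) _ _ fun φ => ?_
        have h3 : (Function.Involutive.toPerm (cbar : (K i →+* L) → (K i →+* L)) cbar_cbar) φ =
          cbar φ := rfl
        rw [h3, hcomm, hodd]
        push_cast
        ring
      simp only [S, c]
      push_cast
      rw [two_mul, ← Finset.sum_add_distrib, Finset.mul_sum]
      refine Finset.sum_congr rfl fun i _ => ?_
      have h4 := h2 i
      have h5 : ∑ φ : K i →+* L, (N i φ : ℝ) * ((D i : ℝ)⁻¹ * u i (jp.comp (σ • φ))) +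
          ∑ φ : K i →+* L, (N i φ : ℝ) * ((D i : ℝ)⁻¹ * u i (jp.comp (σ • φ))) =
          ∑ φ : K i →+* L, ((N i φ : ℝ) - N i (cbar φ)) * ((D i : ℝ)⁻¹ *
            u i (jp.comp (σ • φ))) := by
        have h6 : ∀ φ : K i →+* L, ((N i φ : ℝ) - N i (cbar φ)) * ((D i : ℝ)⁻¹ *
            u i (jp.comp (σ • φ))) = (N i φ : ℝ) * ((D i : ℝ)⁻¹ * u i (jp.comp (σ • φ))) -
            (N i (cbar φ) : ℝ) * ((D i : ℝ)⁻¹ * u i (jp.comp (σ • φ))) := fun φ => by ring
        rw [Finset.sum_congr rfl (fun φ _ => h6 φ), Finset.sum_sub_distrib, h4]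
        ring
      rw [h5, Finset.mul_sum]
      refine Finset.sum_congr rfl fun φ _ => ?_
      rw [hDD i]
      ring
    rw [hS0, mul_zero, mul_zero] at h1
    exact_mod_cast h1)
  intro i ψ
  obtain ⟨φ, rfl⟩ := h i ψ
  have h1 := key i φ
  simp only [c] at h1
  have h2 : (∏ k ∈ Finset.univ.erase i, (D k : ℤ)) ≠ 0 :=
    Finset.prod_ne_zero_iff.2 fun k _ => by exact_mod_cast (hD k).ne'
  have h3 := sub_eq_zero.1 ((mul_eq_zero.1 h1).resolve_left h2)
  rw [← comp_cbar]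
  exact h3

/-- Maximal angle rank for abelian CM fields. -/
theorem angle_of_abelian [∀ i, IsAbelianGalois ℚ (K i)] (hint : ∀ i, IsIntegral ℤ (π i))
    (ha : 0 < a) (hweil : ∀ i, ∀ φ : K i →+* ℂ, ‖φ (π i)‖ ^ 2 = (p : ℝ) ^ a)
    (hA : NormsIndecomposable π) (hB : RealIntersections K) : MaximalAngleRank (p ^ a) π := by
  obtain ⟨L, hL1, hL2, j, h⟩ := exists_galois K
  let jp : L →ₐ[ℚ] PadicAlgCl p := IsAlgClosed.lift
  have hπ : ∀ i, π i ≠ 0 := fun i => ne_zero_of_weil (p := p) (m := a) (hweil i)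
  choose D u hD hslopes hu using fun i => exists_hasSlopes (p := p) ha (hπ i)
  refine angle_of_free hweil hD hu j h (jp : L →+* PadicAlgCl p) ?_
  exact free_abelian (m := fun _ => a) j h hint hweil (κ := fun i => ((D i : ℚ))⁻¹) (fun i => by
    have := hD i
    positivity) hu (jp : L →+* PadicAlgCl p) hA hB

end

end Run7.h16.MA
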