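import Mathlib

/-!
# Isomorphic fields
-/

set_option autoImplicit false

namespace Run7.h16.MA

/-- The fields `T` and `T'` are isomorphic. -/
abbrev AreIsomorphic (T T' : Type) [Field T] [Field T'] : Prop := Nonempty (T ≃+* T')

end Run7.h16.MA
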