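import Mathlib
import Pool.Agent.Run7.h16.AB.Defs
import Pool.Agent.Run7.h16.MA.Iso

/-!
# Numbers whose norms are unrelated to an abelian CM field
-/

set_option autoImplicit false

namespace Run7.h16.MA

open Run7.h16.AB

/-- Some positive power of the norm of `x` to `T` is a product of elements of proper subfields of
`T`. -/
abbrev NormDecomposable {F : Type} [Field F] [Algebra ℚ F] (T : IntermediateField ℚ F) (x : F) :
    Prop :=
  ∃ n : ℕ, 0 < n ∧ FromSubfields (Algebra.norm T x ^ n)

/-- If a subfield `T` of `K`, cyclic over `ℚ` and not totally real, is isomorphic to a subfield `T'`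
of `F`, then the norm of `x` to `T'` is decomposable. -/
abbrev NormUnrelatedIn (K : Type) [Field K] [NumberField K] {F : Type} [Field F] [Algebra ℚ F]
    (x : F) : Prop :=
  ∀ (T : IntermediateField ℚ K) (T' : IntermediateField ℚ F), CyclicNotReal T →
    AreIsomorphic T T' → NormDecomposable T' x

/-- The norms of the generator `ρ` of the field `ℚ(ρ)` are unrelated to `K`. -/
abbrev NormUnrelatedTo (K : Type) [Field K] [NumberField K] (ρ : ℂ) : Prop :=
  NormUnrelatedIn K (IntermediateField.AdjoinSimple.gen ℚ ρ)

/-- The complex number `ρ` is algebraic, not zero, and its norms are unrelated to the fields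
`K i`. -/
def NormUnrelated {I : Type} (K : I → Type) [∀ i, Field (K i)] [∀ i, NumberField (K i)] (ρ : ℂ) :
    Prop :=
  ρ ≠ 0 ∧ IsIntegral ℚ ρ ∧ ∀ i, NormUnrelatedTo (K i) ρ

end Run7.h16.MA
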