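import Mathlib
import Pool.Agent.Run7.h16.AB.Core

/-!
# Relations between translates of functions on commutative quotients, with a right-hand side
-/

set_option linter.unusedSectionVars false
set_option linter.unusedVariables false

namespace Run7.h16.AB

open Finset

noncomputable section

theorem invChar_odd {A : Type*} [CommGroup A] {θ : A →* ℂ} {z : A} (h : θ z ≠ 1) :
    invChar θ z ≠ 1 := by
  intro h2
  apply h
  have h1 := mul_invChar θ z
  rw [h2, mul_one] at h1
  exact h1

/-- The product of two character sums. -/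
theorem char_core {Γ : Type*} [Group Γ] [Fintype Γ] {ι : Type*} [Fintype ι] {A : ι → Type*}
    [∀ i, CommGroup (A i)] [∀ i, Fintype (A i)] (r : ∀ i, Γ →* A i)
    (hr : ∀ i, Function.Surjective (r i)) (c W : ∀ i, A i → ℤ) (i : ι) (θ : A i →* ℂ)
    (hrel : ∑ σ : Γ, invChar θ (r i σ) *
      ∑ i', ∑ a : A i', (c i' a : ℂ) * (W i' (a * r i' σ) : ℂ) = 0)
    (hB : ∀ i' (θ' : A i' →* ℂ), θ.comp (r i) = θ'.comp (r i') → i = i') :
    (∑ g, (c i g : ℂ) * θ g) * ∑ b, (W i b : ℂ) * invChar θ b = 0 := by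
  classical
  let D : ι → ℂ := fun i' => ∑ σ : Γ, invChar θ (r i σ) *
    ∑ a : A i', (c i' a : ℂ) * (W i' (a * r i' σ) : ℂ)
  have hDsum : ∑ i', D i' = 0 := by
    simp only [D]
    rw [Finset.sum_comm]
    rw [← hrel]
    refine Finset.sum_congr rfl fun σ _ => ?_
    rw [← Finset.mul_sum]
  have hDne : ∀ i', i' ≠ i → D i' = 0 := by
    intro i' hne
    obtain ⟨τ, hτ, hτ'⟩ : ∃ τ, r i' τ = 1 ∧ θ (r i τ) ≠ 1 := by
      by_contra hcon
      push Not at hcon
      obtain ⟨θ', hθ'⟩ := exists_descend (r i) (r i') (hr i') θ hcon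
      exact hne (hB i' θ' hθ').symm
    have h1 : D i' = invChar θ (r i τ) * D i' := by
      simp only [D]
      rw [Finset.mul_sum]
      refine (Fintype.sum_equiv (Equiv.mulLeft τ) _ _ fun σ => ?_).symm
      rw [Equiv.coe_mulLeft, map_mul, map_mul, map_mul, hτ, one_mul, mul_assoc]
    have h2 : (θ (r i τ) - 1) * D i' = 0 := by
      have h3 := mul_invChar θ (r i τ)
      have h4 : θ (r i τ) * D i' = D i' := by
        conv_lhs => rw [h1]
        rw [← mul_assoc, h3, one_mul]
      rw [sub_mul, one_mul, h4, sub_self]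
    exact (mul_eq_zero.1 h2).resolve_left (sub_ne_zero.2 hτ')
  have hDi : D i = 0 := by
    rw [Finset.sum_eq_single i (fun i' _ hne => hDne i' hne)
      (fun h => absurd (Finset.mem_univ _) h)] at hDsum
    exact hDsum
  let f : A i → ℂ := fun b => invChar θ b * ∑ a : A i, (c i a : ℂ) * (W i (a * b) : ℂ)
  choose s hs using hr i
  have hf1 : ∑ b : A i, ∑ σ : Γ, f (r i (σ * s b)) = 0 := by
    refine Finset.sum_eq_zero fun b _ => ?_
    rw [Fintype.sum_equiv (Equiv.mulRight (s b)) (fun σ => f (r i (σ * s b)))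
      (fun σ => f (r i σ)) (fun σ => rfl)]
    exact hDi
  have hf2 : ∑ b : A i, ∑ σ : Γ, f (r i (σ * s b)) = (Fintype.card Γ : ℂ) * ∑ b, f b := by
    rw [Finset.sum_comm]
    have h1 : ∀ σ : Γ, ∑ b : A i, f (r i (σ * s b)) = ∑ b, f b := by
      intro σ
      refine Fintype.sum_equiv (Equiv.mulLeft (r i σ)) _ _ fun b => ?_
      rw [Equiv.coe_mulLeft, map_mul, hs]
    rw [Finset.sum_congr rfl (fun σ _ => h1 σ), Finset.sum_const, nsmul_eq_mul,
      Finset.card_univ]
  have hf3 : ∑ b, f b = 0 := by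
    rw [hf1] at hf2
    have h4 : (Fintype.card Γ : ℂ) ≠ 0 := by exact_mod_cast Fintype.card_ne_zero
    exact (mul_eq_zero.1 hf2.symm).resolve_left h4
  have hf4 : ∑ b, f b = (∑ g, (c i g : ℂ) * θ g) * ∑ b, (W i b : ℂ) * invChar θ b := by
    simp only [f, Finset.mul_sum]
    rw [Finset.sum_comm]
    rw [← Finset.mul_sum]
    simp only [Finset.sum_mul]
    refine Finset.sum_congr rfl fun g _ => ?_
    rw [Finset.mul_sum]
    refine Fintype.sum_equiv (Equiv.mulLeft g) _ _ fun b => ?_
    rw [Equiv.coe_mulLeft, map_mul]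
    have h1 := mul_invChar θ g
    linear_combination (invChar θ b * (c i g : ℂ) * (W i (g * b) : ℂ)) * (-h1)
  rw [← hf4, hf3]

/-- An even character sum of an odd function vanishes. -/
theorem even_sum {A : Type*} [CommGroup A] [Fintype A] {z : A} {c : A → ℤ}
    (hc : ∀ a, c (z * a) = - c a) (θ : A →* ℂ) (hθ : θ z = 1) :
    ∑ g, (c g : ℂ) * θ g = 0 := by
  have h1 : ∑ g, (c g : ℂ) * θ g = - ∑ g, (c g : ℂ) * θ g := by
    rw [← Finset.sum_neg_distrib]
    refine (Fintype.sum_equiv (Equiv.mulLeft z) _ _ fun g => ?_).symm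
    rw [Equiv.coe_mulLeft, map_mul, hθ, one_mul, hc]
    push_cast
    ring
  exact self_eq_neg.1 h1

/-- An odd function is zero if all its odd character sums vanish. -/
theorem zero_of_odd_sums {A : Type*} [CommGroup A] [Fintype A] {z : A} {c : A → ℤ}
    (hc : ∀ a, c (z * a) = - c a)
    (h : ∀ θ : A →* ℂ, θ z ≠ 1 → ∑ g, (c g : ℂ) * θ g = 0) (a : A) : c a = 0 := by
  have key : (c a : ℂ) = 0 := by
    refine eq_zero_of_char (fun a => (c a : ℂ)) (fun θ => ?_) a
    by_cases hθ : θ z = 1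
    · exact even_sum hc θ hθ
    · exact h θ hθ
  exact_mod_cast key

/-- An odd function all whose odd character sums vanish, except for characters which are trivial
at `x`, is invariant under `x`. -/
theorem inv_of_odd_sums {A : Type*} [CommGroup A] [Fintype A] {z : A} {c : A → ℤ}
    (hc : ∀ a, c (z * a) = - c a) (x : A)
    (h : ∀ θ : A →* ℂ, θ z ≠ 1 → θ x ≠ 1 → ∑ g, (c g : ℂ) * θ g = 0) (a : A) :
    c (x * a) = c a := by
  have key : ((c (x * a) - c a : ℤ) : ℂ) = 0 := by
    refine eq_zero_of_char (fun a => ((c (x * a) - c a : ℤ) : ℂ)) (fun θ => ?_) a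
    have h1 : ∑ g, ((c (x * g) - c g : ℤ) : ℂ) * θ g =
        (invChar θ x - 1) * ∑ g, (c g : ℂ) * θ g := by
      have h2 : ∑ g, (c (x * g) : ℂ) * θ g = invChar θ x * ∑ g, (c g : ℂ) * θ g := by
        rw [Finset.mul_sum]
        refine Fintype.sum_equiv (Equiv.mulLeft x) _ _ fun g => ?_
        rw [Equiv.coe_mulLeft, map_mul]
        have h3 := mul_invChar θ x
        linear_combination (-(c (x * g) : ℂ) * θ g) * h3
      rw [sub_mul, one_mul, ← h2, ← Finset.sum_sub_distrib]
      refine Finset.sum_congr rfl fun g _ => ?_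
      push_cast
      ring
    rw [h1]
    by_cases hx : θ x = 1
    · have h3 := mul_invChar θ x
      rw [hx, one_mul] at h3
      rw [h3, sub_self, zero_mul]
    · by_cases hθ : θ z = 1
      · rw [even_sum hc θ hθ, mul_zero]
      · rw [h θ hθ hx, mul_zero]
  have key' : c (x * a) - c a = 0 := by exact_mod_cast key
  exact sub_eq_zero.1 key'

end

end Run7.h16.AB
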