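import Mathlib
import Pool.Agent.Run7.h16.AB.Final
import Pool.Agent.Run7.h16.MA.Def

/-!
# Character sums of logarithms
-/

set_option linter.unusedSectionVars false
set_option linter.unusedVariables false

namespace Run7.h16.MA

open NumberField Module Pool.Agent.H204R3.CM Pool.Agent.H977R3.WN Pool.Agent.H485R3.Exact
  Pool.Agent.W527 Run7.h16.AB
open scoped IsMulCommutative

noncomputable section

variable {p : ℕ} [hp : Fact p.Prime] {L : Type} [Field L] [NumberField L] [IsGalois ℚ L]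
  (jp : L →+* PadicAlgCl p) (θ : (L ≃ₐ[ℚ] L) →* ℂ)

/-- The sum of the logarithms of the absolute values of the conjugates, with a character. -/
def S (x : L) : ℂ := ∑ σ : L ≃ₐ[ℚ] L, θ σ * ((Real.log ‖jp (σ x)‖ : ℝ) : ℂ)

theorem norm_ne {x : L} (hx : x ≠ 0) (σ : L ≃ₐ[ℚ] L) : ‖jp (σ x)‖ ≠ 0 :=
  norm_ne_zero_iff.2 ((map_ne_zero jp).2 ((map_ne_zero σ).2 hx))

theorem S_one : S jp θ 1 = 0 := by
  unfold S
  refine Finset.sum_eq_zero fun σ _ => ?_
  rw [map_one, map_one, norm_one, Real.log_one, Complex.ofReal_zero, mul_zero]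

theorem S_mul {x y : L} (hx : x ≠ 0) (hy : y ≠ 0) : S jp θ (x * y) = S jp θ x + S jp θ y := by
  unfold S
  rw [← Finset.sum_add_distrib]
  refine Finset.sum_congr rfl fun σ _ => ?_
  rw [map_mul, map_mul, norm_mul, Real.log_mul (norm_ne jp hx σ) (norm_ne jp hy σ),
    Complex.ofReal_add, mul_add]

theorem S_pow {x : L} (hx : x ≠ 0) (n : ℕ) : S jp θ (x ^ n) = n * S jp θ x := by
  induction n with
  | zero => rw [pow_zero, S_one, Nat.cast_zero, zero_mul]
  | succ n ih =>
    rw [pow_succ, S_mul jp θ (pow_ne_zero n hx) hx, ih, Nat.cast_succ]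
    ring

theorem S_prod {X : Type*} (s : Finset X) (f : X → L) (hf : ∀ i ∈ s, f i ≠ 0) :
    S jp θ (∏ i ∈ s, f i) = ∑ i ∈ s, S jp θ (f i) := by
  classical
  induction s using Finset.induction_on with
  | empty => rw [Finset.prod_empty, Finset.sum_empty, S_one]
  | insert a s ha ih =>
    rw [Finset.prod_insert ha, Finset.sum_insert ha, S_mul jp θ (hf a (Finset.mem_insert_self a s)),
      ih fun i hi => hf i (Finset.mem_insert_of_mem hi)]
    exact Finset.prod_ne_zero_iff.2 fun i hi => hf i (Finset.mem_insert_of_mem hi)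

theorem S_smul (g : L ≃ₐ[ℚ] L) (x : L) : θ g * S jp θ (g x) = S jp θ x := by
  unfold S
  rw [Finset.mul_sum]
  refine Fintype.sum_equiv (Equiv.mulRight g) _ _ fun σ => ?_
  rw [Equiv.coe_mulRight, map_mul]
  change _ = θ σ * θ g * ((Real.log ‖jp (σ (g x))‖ : ℝ) : ℂ)
  ring

theorem S_of_fixed {g : L ≃ₐ[ℚ] L} {x : L} (hg : g x = x) (hθ : θ g ≠ 1) : S jp θ x = 0 := by
  have h1 := S_smul jp θ g x
  rw [hg] at h1
  have h2 : (θ g - 1) * S jp θ x = 0 := by rw [sub_mul, one_mul, h1, sub_self]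
  exact (mul_eq_zero.1 h2).resolve_left (sub_ne_zero.2 hθ)

theorem S_of_one {g : L ≃ₐ[ℚ] L} (hθ : θ g = 1) (x : L) : S jp θ (g x) = S jp θ x := by
  have h1 := S_smul jp θ g x
  rw [hθ, one_mul] at h1
  exact h1

/-- The subfield of `M` of the elements whose image is fixed by the kernel of the character. -/
def sub (M : Type) [Field M] [NumberField M] (e : M →+* L) : IntermediateField ℚ M :=
  (IntermediateField.fixedField θ.ker).comap (RingHom.equivRatAlgHom M L e)

variable {M : Type} [Field M] [NumberField M] (e : M →+* L)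

theorem mem_sub (x : M) : x ∈ sub θ M e ↔ ∀ g : L ≃ₐ[ℚ] L, θ g = 1 → g (e x) = e x := by
  change e x ∈ IntermediateField.fixedField θ.ker ↔ _
  rw [IntermediateField.mem_fixedField_iff]
  rfl

variable {θ e}

/-- If the stabilizer of `e` lies in the kernel of the character, each element fixed by the kernel
comes from the subfield. -/
theorem exists_sub (hst : ∀ g : L ≃ₐ[ℚ] L, g • e = e → θ g = 1) (y : L)
    (hy : ∀ g : L ≃ₐ[ℚ] L, θ g = 1 → g y = y) : ∃ x : sub θ M e, e x = y := by
  obtain ⟨x, rfl⟩ := mem_range_of_fixed e y (fun g hg => hy g (hst g hg))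
  exact ⟨⟨x, (mem_sub θ e x).2 hy⟩, rfl⟩

/-- Products of elements of proper subfields have vanishing sums. -/
theorem S_fromSubfields (hst : ∀ g : L ≃ₐ[ℚ] L, g • e = e → θ g = 1) {y : sub θ M e}
    (hy : FromSubfields y) (hy0 : y ≠ 0) : S jp θ (e y) = 0 := by
  unfold FromSubfields at hy
  induction hy using Submonoid.closure_induction with
  | mem y hy =>
    obtain ⟨F, hF, hyF⟩ := hy
    let F' : IntermediateField ℚ (sub θ M e) := F.toIntermediateField (fun r => by
      rw [eq_ratCast]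
      exact SubfieldClass.ratCast_mem F r)
    have hex : ∃ g : L ≃ₐ[ℚ] L, (∀ x ∈ F, g (e (x : M)) = e (x : M)) ∧ θ g ≠ 1 := by
      by_contra hcon
      push Not at hcon
      apply hF
      rw [eq_top_iff]
      intro t _
      let f : F' →+* L := e.comp ((algebraMap (sub θ M e) M).comp (algebraMap F' (sub θ M e)))
      obtain ⟨x, hx⟩ := mem_range_of_fixed f (e (t : M)) (fun g hg => by
        refine (mem_sub θ e (t : M)).1 t.2 g (hcon g fun x hx => ?_)
        exact RingHom.congr_fun hg ⟨x, hx⟩)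
      have h1 : ((x : sub θ M e) : M) = (t : M) := e.injective hx
      have h2 : (x : sub θ M e) = t := Subtype.ext h1
      rw [← h2]
      exact x.2
    obtain ⟨g, hg, hθ⟩ := hex
    exact S_of_fixed jp θ (hg y hyF) hθ
  | one =>
    have h1 : e ((1 : sub θ M e) : M) = 1 := by
      rw [OneMemClass.coe_one, map_one]
    rw [h1, S_one]
  | mul x y _ _ hx hy =>
    have hx0 : x ≠ 0 := left_ne_zero_of_mul hy0
    have hy0' : y ≠ 0 := right_ne_zero_of_mul hy0
    have h1 : e ((x * y : sub θ M e) : M) = e (x : M) * e (y : M) := by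
      rw [MulMemClass.coe_mul, map_mul]
    have hxe : e (x : M) ≠ 0 := (map_ne_zero e).2 (fun h => hx0 (Subtype.ext h))
    have hye : e (y : M) ≠ 0 := (map_ne_zero e).2 (fun h => hy0' (Subtype.ext h))
    rw [h1, S_mul jp θ hxe hye, hx hx0, hy hy0', add_zero]

/-- The sum for the norm. -/
theorem S_norm (hst : ∀ g : L ≃ₐ[ℚ] L, g • e = e → θ g = 1) {ρ : M} (hρ : ρ ≠ 0)
    (h0 : S jp θ (e (Algebra.norm (sub θ M e) ρ : sub θ M e)) = 0) : S jp θ (e ρ) = 0 := by
  classical
  letI : Algebra M L := e.toAlgebra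
  haveI : IsScalarTower ℚ M L := IsScalarTower.of_algebraMap_eq' (Subsingleton.elim _ _)
  haveI : IsScalarTower ℚ (sub θ M e) L := IsScalarTower.of_algebraMap_eq' (Subsingleton.elim _ _)
  haveI : IsGalois (sub θ M e) L := IsGalois.tower_top_of_isGalois ℚ (sub θ M e) L
  haveI : FiniteDimensional (sub θ M e) L := FiniteDimensional.right ℚ (sub θ M e) L
  haveI : FiniteDimensional M L := FiniteDimensional.right ℚ M L
  have h1 : algebraMap (sub θ M e) L (Algebra.norm (sub θ M e) (e ρ)) =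
      ∏ σ : L ≃ₐ[sub θ M e] L, σ (e ρ) := Algebra.norm_eq_prod_automorphisms _ _
  have h2 : Algebra.norm (sub θ M e) (e ρ) =
      (Algebra.norm (sub θ M e) ρ) ^ finrank M L := by
    rw [← Algebra.norm_norm (S := M)]
    have h3 : Algebra.norm M (e ρ) = ρ ^ finrank M L := Algebra.norm_algebraMap ρ
    rw [h3, map_pow]
  have hN0 : Algebra.norm (sub θ M e) ρ ≠ 0 := Algebra.norm_ne_zero_iff.2 hρ
  have hN0' : e (Algebra.norm (sub θ M e) ρ : sub θ M e) ≠ 0 :=
    (map_ne_zero e).2 (fun h => hN0 (Subtype.ext h))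
  have h3 : S jp θ (∏ σ : L ≃ₐ[sub θ M e] L, σ (e ρ)) = 0 := by
    rw [← h1, h2, map_pow]
    change S jp θ ((e (Algebra.norm (sub θ M e) ρ : sub θ M e)) ^ finrank M L) = 0
    rw [S_pow jp θ hN0', h0, mul_zero]
  rw [S_prod jp θ _ _ (fun σ _ => (map_ne_zero σ).2 ((map_ne_zero e).2 hρ))] at h3
  have h4 : ∀ σ : L ≃ₐ[sub θ M e] L, S jp θ (σ (e ρ)) = S jp θ (e ρ) := by
    intro σ
    refine S_of_one jp θ (g := σ.restrictScalars ℚ) ?_ (e ρ)
    have h5 : σ.restrictScalars ℚ ∈ (IntermediateField.fixedField θ.ker).fixingSubgroup := by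
      rw [IntermediateField.mem_fixingSubgroup_iff]
      intro y hy
      rw [IntermediateField.mem_fixedField_iff] at hy
      obtain ⟨x, rfl⟩ := exists_sub hst y (fun g hg => hy g hg)
      exact σ.commutes x
    rw [IntermediateField.fixingSubgroup_fixedField] at h5
    exact h5
  rw [Finset.sum_congr rfl (fun σ _ => h4 σ), Finset.sum_const, nsmul_eq_mul] at h3
  refine (mul_eq_zero.1 h3).resolve_left ?_
  rw [Finset.card_univ]
  exact_mod_cast Fintype.card_ne_zero

end

end Run7.h16.MA
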