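import Mathlib
import Pool.Agent.Run7.h16.MA.Sum
import Pool.Agent.Run7.h16.MA.Core2
import Pool.Agent.Run7.h16.MA.Char
import Pool.Agent.W527.FrobMild
import Pool.Agent.Y137.MV.Criteria

/-!
# Multiplicative relations of Weil numbers in abelian CM fields and a number
-/

set_option linter.unusedSectionVars false
set_option linter.unusedVariables false
set_option linter.style.haveILetI false

namespace Run7.h16.MA

open NumberField Module Pool.Agent.H204R3.CM Pool.Agent.H977R3.WN Pool.Agent.H485R3.Exact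
  Pool.Agent.W527 Run7.h16.AB
open scoped IsMulCommutative

noncomputable section

theorem cyclic_fixed {K : Type} [Field K] [NumberField K] [IsAbelianGalois ℚ K]
    (θ : (K ≃ₐ[ℚ] K) →* ℂ) :
    IsCyclic ((IntermediateField.fixedField θ.ker) ≃ₐ[ℚ] (IntermediateField.fixedField θ.ker)) := by
  classical
  let T : IntermediateField ℚ K := IntermediateField.fixedField θ.ker
  obtain ⟨ρ, hρs, hρv'⟩ := exists_rr (algebraMap T K)
  have hρv : ∀ g (x : T), ((ρ g x : T) : K) = g x := hρv'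
  have hρ1 : ∀ g, ρ g = 1 → θ ((MonoidHom.id (K ≃ₐ[ℚ] K)) g) = 1 := by
    intro g hg
    have h1 : g ∈ T.fixingSubgroup := by
      rw [IntermediateField.mem_fixingSubgroup_iff]
      intro x hx
      have h2 := hρv g ⟨x, hx⟩
      rw [hg] at h2
      exact h2.symm
    rw [IntermediateField.fixingSubgroup_fixedField] at h1
    exact h1
  obtain ⟨θT, hθT⟩ := exists_descend (MonoidHom.id _) ρ hρs θ hρ1
  have hθT' : ∀ g, θ g = θT (ρ g) := fun g => DFunLike.congr_fun hθT g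
  have hinj : Function.Injective θT := by
    rw [← MonoidHom.ker_eq_bot_iff, eq_bot_iff]
    intro k hk
    obtain ⟨g, rfl⟩ := hρs k
    have h1 : g ∈ θ.ker := by
      change θ g = 1
      rw [hθT']
      exact hk
    rw [Subgroup.mem_bot]
    ext x
    rw [hρv]
    exact (IntermediateField.mem_fixedField_iff _ (x : K)).1 x.2 g h1
  exact isCyclic_of_injective_ringHom θT hinj

section one

variable {p : ℕ} [hp : Fact p.Prime] {L : Type} [Field L] [NumberField L] [IsGalois ℚ L]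
  (jp : L →+* PadicAlgCl p) {K : Type} [Field K] [NumberField K] [IsCMField K]
  [IsAbelianGalois ℚ K]

theorem S_zero (φ₀ : K →+* L) {r : (L ≃ₐ[ℚ] L) →* (K ≃ₐ[ℚ] K)}
    (hrs : Function.Surjective r) (hr : ∀ σ x, φ₀ (r σ x) = σ (φ₀ x))
    (θi : (K ≃ₐ[ℚ] K) →* ℂ) (z : K ≃ₐ[ℚ] K) (hz : ∀ x, z x = IsCMField.complexConj K x)
    (hθ : θi z ≠ 1) {ρ : ℂ} (hρ0 : ρ ≠ 0) (hρi : IsIntegral ℚ ρ) (hNU : NormUnrelatedTo K ρ)
    (j : L →+* ℂ) (ρL : L) (hρL : j ρL = ρ) : S jp (θi.comp r) ρL = 0 := by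
  classical
  have : FiniteDimensional ℚ (IntermediateField.adjoin ℚ {ρ}) :=
    IntermediateField.adjoin.finiteDimensional hρi
  have : NumberField (IntermediateField.adjoin ℚ {ρ}) := NumberField.mk
  let j' : L →ₐ[ℚ] ℂ := RingHom.equivRatAlgHom L ℂ j
  have hle : IntermediateField.adjoin ℚ {ρ} ≤ j'.fieldRange := by
    rw [IntermediateField.adjoin_le_iff, Set.singleton_subset_iff]
    exact ⟨ρL, hρL⟩
  have hle' : (IntermediateField.adjoin ℚ {ρ}).toSubalgebra ≤ j'.range := fun x hx => hle hx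
  let e : IntermediateField.adjoin ℚ {ρ} →+* L :=
    (((AlgEquiv.ofInjectiveField j').symm : j'.range →ₐ[ℚ] L).comp
      (Subalgebra.inclusion hle')).toRingHom
  have hje : ∀ x, j (e x) = x := by
    intro x
    have h1 : AlgEquiv.ofInjectiveField j' (e x) = Subalgebra.inclusion hle' x :=
      (AlgEquiv.ofInjectiveField j').apply_symm_apply _
    exact congrArg Subtype.val h1
  have hegen : e (IntermediateField.AdjoinSimple.gen ℚ ρ) = ρL := by
    apply j.injective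
    rw [hje, hρL, IntermediateField.AdjoinSimple.coe_gen]
  by_cases hc : ∃ g : L ≃ₐ[ℚ] L, g ρL = ρL ∧ (θi.comp r) g ≠ 1
  · obtain ⟨g, hg, hg'⟩ := hc
    exact S_of_fixed jp _ hg hg'
  · push Not at hc
    have hst : ∀ g : L ≃ₐ[ℚ] L, g • e = e → (θi.comp r) g = 1 := by
      intro g hg
      apply hc
      rw [← hegen]
      exact RingHom.congr_fun hg _
    let T : IntermediateField ℚ K := IntermediateField.fixedField θi.ker
    let T' : IntermediateField ℚ (IntermediateField.adjoin ℚ {ρ}) := sub (θi.comp r) _ e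
    have hT : CyclicNotReal T :=
      ⟨(nonReal_iff _).1 (nonReal_fixed θi z hz hθ), cyclic_fixed θi⟩
    let f : T →+* L := φ₀.comp (algebraMap _ K)
    let f' : T' →+* L := e.comp (algebraMap _ _)
    have h1 : f.range = f'.range := by
      ext y
      have e1 : y ∈ f.range ↔ ∃ x ∈ IntermediateField.fixedField θi.ker, φ₀ x = y := by
        constructor
        · rintro ⟨x, rfl⟩
          exact ⟨x, x.2, rfl⟩
        · rintro ⟨x, hx, rfl⟩
          exact ⟨⟨x, hx⟩, rfl⟩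
      rw [e1, ← image_fixed hrs hr]
      constructor
      · intro h
        obtain ⟨x, hx⟩ := exists_sub (θ := θi.comp r) hst y h
        exact ⟨x, hx⟩
      · rintro ⟨x, rfl⟩ σ hσ
        exact (mem_sub (θi.comp r) e (x : IntermediateField.adjoin ℚ {ρ})).1 x.2 σ hσ
    let e1 : T ≃+* f.range := RingEquiv.ofBijective f.rangeRestrict
      ⟨fun a b hab => f.injective (congrArg Subtype.val hab), f.rangeRestrict_surjective⟩
    let e2 : T' ≃+* f'.range := RingEquiv.ofBijective f'.rangeRestrict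
      ⟨fun a b hab => f'.injective (congrArg Subtype.val hab), f'.rangeRestrict_surjective⟩
    obtain ⟨n, hn, hfs⟩ := hNU T T' hT ⟨(e1.trans (RingEquiv.subringCongr h1)).trans e2.symm⟩
    have hg0 : IntermediateField.AdjoinSimple.gen ℚ ρ ≠ 0 := by
      intro h
      apply hρ0
      rw [← IntermediateField.AdjoinSimple.coe_gen ℚ ρ, h]
      rfl
    have hN0 : Algebra.norm T' (IntermediateField.AdjoinSimple.gen ℚ ρ) ≠ 0 :=
      Algebra.norm_ne_zero_iff.2 hg0
    have h2 := S_fromSubfields jp (θ := θi.comp r) hst hfs (pow_ne_zero n hN0)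
    have hN0' : e (Algebra.norm T' (IntermediateField.AdjoinSimple.gen ℚ ρ) : T') ≠ 0 :=
      (map_ne_zero e).2 (fun h => hN0 (Subtype.ext h))
    have h3 : S jp (θi.comp r)
        ((e (Algebra.norm T' (IntermediateField.AdjoinSimple.gen ℚ ρ) : T')) ^ n) = 0 := by
      rw [← map_pow]
      exact h2
    rw [S_pow jp _ hN0'] at h3
    have h4 := (mul_eq_zero.1 h3).resolve_left (by exact_mod_cast hn.ne')
    rw [← hegen]
    exact S_norm jp (θ := θi.comp r) hst hg0 h4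

end one

variable {p : ℕ} [hp : Fact p.Prime] {a : ℕ} {I : Type} [Fintype I] {K : I → Type}
  [∀ i, Field (K i)] [∀ i, NumberField (K i)] [∀ i, IsCMField (K i)]
  [∀ i, IsAbelianGalois ℚ (K i)] {π : ∀ i, K i}

/-- The product of a character sum of the exponents of a relation and a character sum of the
slopes vanishes. -/
theorem rel_char {L : Type} [Field L] [NumberField L] [IsGalois ℚ L] (jp : L →+* PadicAlgCl p)
    (φ₀ : ∀ i, K i →+* L) (rr : ∀ i, (L ≃ₐ[ℚ] L) →* (K i ≃ₐ[ℚ] K i))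
    (hrs : ∀ i, Function.Surjective (rr i)) (hr : ∀ i σ x, φ₀ i (rr i σ x) = σ (φ₀ i x))
    (κc : L ≃ₐ[ℚ] L) (hκ : ∀ i, ∀ φ : K i →+* L, κc • φ = cbar φ)
    (hweil : ∀ i, ∀ φ : K i →+* ℂ, ‖φ (π i)‖ ^ 2 = (p : ℝ) ^ a)
    {D : I → ℕ} (hD : ∀ i, 0 < D i) {u : ∀ i, (K i →+* PadicAlgCl p) → ℤ}
    (hu : ∀ i, ∀ τ : K i →+* PadicAlgCl p,
      2 * (- Real.logb p ‖τ (π i)‖) - a = (((D i : ℚ)⁻¹ : ℚ) : ℝ) * u i τ)
    (N : ∀ i, (K i →+* L) → ℤ) (ρL : L) (hρL0 : ρL ≠ 0) (t : ℕ) (r : ℤ)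
    (hL : (∏ i, ∏ φ : K i →+* L, (φ (π i)) ^ N i φ) * ρL ^ t = ((p : L) ^ a) ^ r)
    (i : I) (θ : (K i ≃ₐ[ℚ] K i) →* ℂ) (hθ : θ (rr i κc) ≠ 1)
    (hB : ∀ i' (θ' : (K i' ≃ₐ[ℚ] K i') →* ℂ), θ.comp (rr i) = θ'.comp (rr i') → i = i')
    (hS : S jp ((invChar θ).comp (rr i)) ρL = 0) :
    (∑ g, ((N i (em (φ₀ i) g) - N i (cbar (em (φ₀ i) g)) : ℤ) : ℂ) * θ g) *
      ∑ b, (u i (jp.comp (em (φ₀ i) b)) : ℂ) * invChar θ b = 0 := by
  classical
  have hπ0 : ∀ i, π i ≠ 0 := fun i => ne_zero_of_weil (p := p) (m := a) (hweil i)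
  have hp1 : (1 : ℝ) < p := by exact_mod_cast hp.out.one_lt
  have hlogp : 0 < Real.log p := Real.log_pos hp1
  -- logarithms
  have hlog : ∀ σ : L ≃ₐ[ℚ] L, (∑ i, ∑ φ : K i →+* L,
      (N i φ : ℝ) * Real.log ‖(jp.comp (σ • φ)) (π i)‖) + t * Real.log ‖jp (σ ρL)‖ =
        r * Real.log ‖((p : PadicAlgCl p) ^ a)‖ := by
    intro σ
    have h1 := congrArg (fun x => Real.log ‖jp (σ x)‖) hL
    have hne : ∀ i, ∏ φ : K i →+* L, (φ (π i)) ^ N i φ ≠ 0 := fun i =>
      Finset.prod_ne_zero_iff.2 fun φ _ => zpow_ne_zero _ ((map_ne_zero φ).2 (hπ0 i))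
    have hne' : ∏ i, ∏ φ : K i →+* L, (φ (π i)) ^ N i φ ≠ 0 :=
      Finset.prod_ne_zero_iff.2 fun i _ => hne i
    rw [map_mul, map_mul, norm_mul, Real.log_mul (norm_ne jp hne' σ)
      (norm_ne jp (pow_ne_zero t hρL0) σ), map_pow σ ρL, map_pow jp (σ ρL), norm_pow,
      Real.log_pow, map_zpow₀ σ, map_zpow₀ jp, norm_zpow, Real.log_zpow, map_pow σ, map_pow jp,
      map_natCast, map_natCast, map_prod, map_prod, _root_.norm_prod, Real.log_prod] at h1
    · rw [← h1]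
      congr 1
      refine Finset.sum_congr rfl fun i _ => ?_
      rw [map_prod, map_prod, _root_.norm_prod, Real.log_prod]
      · refine Finset.sum_congr rfl fun φ _ => ?_
        rw [map_zpow₀, map_zpow₀, norm_zpow, Real.log_zpow]
        rfl
      · intro φ _
        exact norm_ne jp (zpow_ne_zero _ ((map_ne_zero φ).2 (hπ0 i))) σ
    · intro i _
      exact norm_ne jp (hne i) σ
  have hone : ∀ i, ∀ τ : K i →+* PadicAlgCl p, Real.log ‖τ (π i)‖ =
      - (Real.log p / 2) * (((D i : ℝ)⁻¹) * u i τ + a) := by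
    intro i τ
    have h1 := hu i τ
    rw [Real.logb] at h1
    push_cast at h1
    field_simp at h1
    have h2 : (Real.log p / 2) * (((D i : ℝ)⁻¹) * u i τ) = (Real.log p * u i τ / D i) / 2 := by
      rw [div_eq_mul_inv (Real.log p * u i τ)]
      ring
    rw [neg_mul, mul_add, h2, ← h1]
    ring
  let Q : (L ≃ₐ[ℚ] L) → ℝ := fun σ => ∑ i, ∑ φ : K i →+* L,
    (N i φ : ℝ) * ((D i : ℝ)⁻¹ * u i (jp.comp (σ • φ)))
  let M : ℝ := ∑ i, ∑ φ : K i →+* L, (N i φ : ℝ) * a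
  have hQ : ∀ σ, Q σ = (2 * t / Real.log p) * Real.log ‖jp (σ ρL)‖ -
      ((2 / Real.log p) * (r * Real.log ‖((p : PadicAlgCl p) ^ a)‖) + M) := by
    intro σ
    have h1 : (∑ i, ∑ φ : K i →+* L, (N i φ : ℝ) * Real.log ‖(jp.comp (σ • φ)) (π i)‖) =
        - (Real.log p / 2) * (Q σ + M) := by
      simp only [Q, M]
      rw [← Finset.sum_add_distrib, Finset.mul_sum]
      refine Finset.sum_congr rfl fun i _ => ?_
      rw [← Finset.sum_add_distrib, Finset.mul_sum]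
      refine Finset.sum_congr rfl fun φ _ => ?_
      rw [hone]
      ring
    have h2 := hlog σ
    rw [h1] at h2
    rw [← h2]
    field_simp
    ring
  have hodd : ∀ i (φ : K i →+* L), u i (jp.comp (cbar φ)) = - u i (jp.comp φ) := by
    intro i φ
    have h1 := anti_of_slopes' (hweil i) (κ := ((D i : ℚ))⁻¹)
      (inv_ne_zero (by exact_mod_cast (hD i).ne')) (hu i) (jp.comp φ)
    exact h1
  have hcomm : ∀ (σ : L ≃ₐ[ℚ] L) i (φ : K i →+* L), σ • cbar φ = cbar (σ • φ) := by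
    intro σ i φ
    rfl
  -- the antisymmetric exponents
  let c : ∀ i, (K i →+* L) → ℤ := fun i φ =>
    (∏ k ∈ Finset.univ.erase i, (D k : ℤ)) * (N i φ - N i (cbar φ))
  have hDD : ∀ i, (∏ k ∈ Finset.univ.erase i, (D k : ℝ)) = (∏ k, (D k : ℝ)) * (D i : ℝ)⁻¹ := by
    intro i
    rw [← Finset.mul_prod_erase _ _ (Finset.mem_univ i), mul_comm (D i : ℝ), mul_assoc,
      mul_inv_cancel₀ (by exact_mod_cast (hD i).ne'), mul_one]
  have hsum : ∀ σ : L ≃ₐ[ℚ] L, ((∑ i, ∑ φ : (K i →+* L), c i φ * u i (jp.comp (σ • φ)) : ℤ) : ℝ) =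
      (∏ k, (D k : ℝ)) * (2 * Q σ) := by
    intro σ
    have h2 : ∀ i, ∑ φ : K i →+* L, (N i (cbar φ) : ℝ) * ((D i : ℝ)⁻¹ *
        u i (jp.comp (σ • φ))) = - ∑ φ : K i →+* L, (N i φ : ℝ) * ((D i : ℝ)⁻¹ *
        u i (jp.comp (σ • φ))) := by
      intro i
      rw [← Finset.sum_neg_distrib]
      refine Fintype.sum_equiv (Function.Involutive.toPerm (cbar : (K i →+* L) → (K i →+* L))
        cbar_cbar) _ _ fun φ => ?_
      have h3 : (Function.Involutive.toPerm (cbar : (K i →+* L) → (K i →+* L)) cbar_cbar) φ =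
        cbar φ := rfl
      rw [h3, hcomm, hodd]
      push_cast
      ring
    simp only [Q, c]
    push_cast
    rw [two_mul, ← Finset.sum_add_distrib, Finset.mul_sum]
    refine Finset.sum_congr rfl fun i _ => ?_
    have h4 := h2 i
    have h5 : ∑ φ : K i →+* L, (N i φ : ℝ) * ((D i : ℝ)⁻¹ * u i (jp.comp (σ • φ))) +
        ∑ φ : K i →+* L, (N i φ : ℝ) * ((D i : ℝ)⁻¹ * u i (jp.comp (σ • φ))) =
        ∑ φ : K i →+* L, ((N i φ : ℝ) - N i (cbar φ)) * ((D i : ℝ)⁻¹ *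
          u i (jp.comp (σ • φ))) := by
      have h6 : ∀ φ : K i →+* L, ((N i φ : ℝ) - N i (cbar φ)) * ((D i : ℝ)⁻¹ *
          u i (jp.comp (σ • φ))) = (N i φ : ℝ) * ((D i : ℝ)⁻¹ * u i (jp.comp (σ • φ))) -
          (N i (cbar φ) : ℝ) * ((D i : ℝ)⁻¹ * u i (jp.comp (σ • φ))) := fun φ => by ring
      rw [Finset.sum_congr rfl (fun φ _ => h6 φ), Finset.sum_sub_distrib, h4]
      ring
    rw [h5, Finset.mul_sum]
    refine Finset.sum_congr rfl fun φ _ => ?_
    rw [hDD i]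
    ring
  have main := char_core (A := fun i => (K i ≃ₐ[ℚ] K i)) rr hrs
    (fun i g => c i (em (φ₀ i) g)) (fun i g => u i (jp.comp (em (φ₀ i) g))) i θ ?_ hB
  · have h1 : ∑ g, (c i (em (φ₀ i) g) : ℂ) * θ g =
        ((∏ k ∈ Finset.univ.erase i, (D k : ℤ) : ℤ) : ℂ) *
          ∑ g, ((N i (em (φ₀ i) g) - N i (cbar (em (φ₀ i) g)) : ℤ) : ℂ) * θ g := by
      rw [Finset.mul_sum]
      refine Finset.sum_congr rfl fun g _ => ?_
      simp only [c]
      push_cast
      ring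
    rw [h1, mul_assoc] at main
    refine (mul_eq_zero.1 main).resolve_left ?_
    exact_mod_cast Finset.prod_ne_zero_iff.2 fun k _ => (by exact_mod_cast (hD k).ne' : (D k : ℤ) ≠ 0)
  · have h1 : ∑ σ : L ≃ₐ[ℚ] L, invChar θ (rr i σ) = 0 := by
      have h2 : invChar θ (rr i κc) * ∑ σ : L ≃ₐ[ℚ] L, invChar θ (rr i σ) =
          ∑ σ : L ≃ₐ[ℚ] L, invChar θ (rr i σ) := by
        rw [Finset.mul_sum]
        refine Fintype.sum_equiv (Equiv.mulLeft κc) _ _ fun σ => ?_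
        rw [Equiv.coe_mulLeft, map_mul, map_mul]
      have h3 : (invChar θ (rr i κc) - 1) * ∑ σ : L ≃ₐ[ℚ] L, invChar θ (rr i σ) = 0 := by
        rw [sub_mul, one_mul, h2, sub_self]
      exact (mul_eq_zero.1 h3).resolve_left (sub_ne_zero.2 (invChar_odd hθ))
    have h4 : ∀ σ : L ≃ₐ[ℚ] L, ∑ i', ∑ a : K i' ≃ₐ[ℚ] K i',
        ((c i' (em (φ₀ i') a) : ℤ) : ℂ) * ((u i' (jp.comp (em (φ₀ i') (a * rr i' σ))) : ℤ) : ℂ) =
        (((∏ k, (D k : ℝ)) * (2 * Q σ) : ℝ) : ℂ) := by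
      intro σ
      rw [← hsum σ]
      push_cast
      refine Finset.sum_congr rfl fun i' _ => ?_
      refine Fintype.sum_equiv (emEquiv (φ₀ i')) _ _ fun a => ?_
      have h5 : emEquiv (φ₀ i') a = em (φ₀ i') a := rfl
      rw [h5, smul_em (hr i')]
    rw [Finset.sum_congr rfl (fun σ _ => by rw [h4 σ])]
    have h6 : ∀ σ : L ≃ₐ[ℚ] L, invChar θ (rr i σ) * (((∏ k, (D k : ℝ)) * (2 * Q σ) : ℝ) : ℂ) =
        ((((∏ k, (D k : ℝ)) * 2 * (2 * t / Real.log p) : ℝ)) : ℂ) *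
          (((invChar θ).comp (rr i)) σ * ((Real.log ‖jp (σ ρL)‖ : ℝ) : ℂ)) -
        ((((∏ k, (D k : ℝ)) * 2 * ((2 / Real.log p) *
          (r * Real.log ‖((p : PadicAlgCl p) ^ a)‖) + M) : ℝ)) : ℂ) * invChar θ (rr i σ) := by
      intro σ
      rw [hQ σ]
      change _ = _ * (invChar θ (rr i σ) * _) - _
      push_cast
      ring
    rw [Finset.sum_congr rfl (fun σ _ => h6 σ), Finset.sum_sub_distrib, ← Finset.mul_sum,
      ← Finset.mul_sum, h1]
    have h7 : ∑ σ : L ≃ₐ[ℚ] L,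
      (((invChar θ).comp (rr i)) σ * ((Real.log ‖jp (σ ρL)‖ : ℝ) : ℂ)) = 0 := hS
    rw [h7, mul_zero, mul_zero, sub_zero]

/-- The character sums of the exponents of a relation vanish if the norms of the Weil number to the
fixed field of the kernel of the character are indecomposable. -/
theorem rel_sums (hint : ∀ i, IsIntegral ℤ (π i)) (ha : 0 < a)
    (hweil : ∀ i, ∀ φ : K i →+* ℂ, ‖φ (π i)‖ ^ 2 = (p : ℝ) ^ a)
    (hB : RealIntersections K) {ρ : ℂ} (hρ : NormUnrelated K ρ)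
    (t : ℕ) (r : ℤ) (n : (Σ i, (K i →+* ℂ)) → ℤ)
    (hrel : (∏ x, (x.2 (π x.1)) ^ n x) * ρ ^ t = ((p ^ a : ℕ) : ℂ) ^ r)
    (ψ : ∀ i, K i →+* ℂ) (i : I) (z : K i ≃ₐ[ℚ] K i)
    (hz : ∀ x, z x = IsCMField.complexConj (K i) x) (θ : (K i ≃ₐ[ℚ] K i) →* ℂ) (hθ : θ z ≠ 1)
    (hind : CyclicNotReal (IntermediateField.fixedField θ.ker) → ∀ m : ℕ, 0 < m →
      ¬ FromSubfields (Algebra.norm (IntermediateField.fixedField θ.ker) (π i) ^ m)) :
    ∑ g : K i ≃ₐ[ℚ] K i, ((n ⟨i, (ψ i).comp (g : K i →+* K i)⟩ -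
      n ⟨i, ComplexEmbedding.conjugate ((ψ i).comp (g : K i →+* K i))⟩ : ℤ) : ℂ) * θ g = 0 := by
  classical
  obtain ⟨hρ0, hρi, hNU⟩ := hρ
  obtain ⟨L, hL1, hL2, j, h, hroots⟩ := Pool.Agent.Y137.MV.exists_galois_roots K (minpoly ℚ ρ)
    (minpoly.ne_zero hρi)
  obtain ⟨ρL, hρL⟩ := hroots ρ (minpoly.aeval ℚ ρ)
  have hρL0 : ρL ≠ 0 := by
    rintro rfl
    rw [map_zero] at hρL
    exact hρ0 hρL.symm
  let jp' : L →ₐ[ℚ] PadicAlgCl p := IsAlgClosed.lift
  let jp : L →+* PadicAlgCl p := jp'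
  have hπ0 : ∀ i, π i ≠ 0 := fun i => ne_zero_of_weil (p := p) (m := a) (hweil i)
  choose D u hD hslopes hu using fun i => exists_hasSlopes (p := p) ha (hπ0 i)
  obtain ⟨κc, hκc⟩ := exists_lift j (starRingAut : ℂ ≃+* ℂ)
  have hκc' : ∀ x, starRingEnd ℂ (j x) = j (κc x) := hκc
  have hκ : ∀ i, ∀ φ : K i →+* L, κc • φ = cbar φ := by
    intro i φ
    apply comp_injective j
    change j.comp (κc • φ) = j.comp (cbar φ)
    rw [comp_cbar]
    exact RingHom.ext fun x => (hκc' (φ x)).symm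
  choose φ₀ hφ₀ using fun i => h i (ψ i)
  choose rr hrs hr using fun i => exists_rr (φ₀ i)
  have hzz : ∀ i x, rr i κc x = IsCMField.complexConj (K i) x := by
    intro i x
    apply (φ₀ i).injective
    rw [hr]
    exact RingHom.congr_fun (hκ i (φ₀ i)) x
  have hzeq : z = rr i κc := by
    ext x
    rw [hz, hzz]
  subst hzeq
  -- the relation in `L`
  let N : ∀ i, (K i →+* L) → ℤ := fun i φ => n ⟨i, j.comp φ⟩
  have hL : (∏ i, ∏ φ : K i →+* L, (φ (π i)) ^ N i φ) * ρL ^ t = ((p : L) ^ a) ^ r := by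
    apply j.injective
    rw [map_mul, map_prod]
    have h1 : ∀ i, j (∏ φ : K i →+* L, (φ (π i)) ^ N i φ) =
        ∏ ψ : K i →+* ℂ, (ψ (π i)) ^ n ⟨i, ψ⟩ := by
      intro i
      rw [map_prod]
      refine Fintype.prod_equiv (embEquiv j (h i)) _ _ fun φ => ?_
      rw [map_zpow₀]
      rfl
    rw [Finset.prod_congr rfl (fun i _ => h1 i), map_zpow₀, map_pow, map_pow, map_natCast, hρL]
    rw [Fintype.prod_sigma] at hrel
    rw [hrel]
    push_cast
    rfl
  have hk : IntermediateField.fixedField (invChar θ).ker = IntermediateField.fixedField θ.ker := by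
    have h1 : (invChar θ).ker = θ.ker := by
      ext x
      have h2 := mul_invChar θ x
      rw [MonoidHom.mem_ker, MonoidHom.mem_ker]
      constructor
      · intro h3
        rw [h3, mul_one] at h2
        exact h2
      · intro h3
        rw [h3, one_mul] at h2
        exact h2
    rw [h1]
  have key := rel_char jp φ₀ rr hrs hr κc hκ hweil hD hu N ρL hρL0 t r hL i θ hθ
    (fun i' θ' hθθ' => by
      by_contra hne
      have hn : NonReal (IntermediateField.fixedField θ.ker) :=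
        nonReal_fixed θ (rr i κc) (hzz i) hθ
      exact (nonReal_iff _).1 hn (hB i i' _ _ hne
        (exists_iso (hrs i) (hr i) (hrs i') (hr i') θ θ' hθθ')))
    (S_zero jp (φ₀ i) (hrs i) (hr i) (invChar θ) (rr i κc) (hzz i) (invChar_odd hθ) hρ0 hρi
      (hNU i) j ρL hρL)
  have h2 : ∑ b, (u i (jp.comp (em (φ₀ i) b)) : ℂ) * invChar θ b ≠ 0 := by
    have h3 : CyclicNotReal (IntermediateField.fixedField θ.ker) :=
      ⟨(nonReal_iff _).1 (nonReal_fixed θ (rr i κc) (hzz i) hθ), cyclic_fixed θ⟩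
    exact char_ne_zero_of j (h i) (hint i) (hweil i) (hu i) jp (φ₀ i) (rr i κc) (hzz i)
      (invChar θ) (invChar_odd hθ) (by rw [hk]; exact hind h3)
  have h3 := (mul_eq_zero.1 key).resolve_right h2
  have h4 : ∀ g : K i ≃ₐ[ℚ] K i, j.comp (em (φ₀ i) g) = (ψ i).comp (g : K i →+* K i) := by
    intro g
    rw [← hφ₀ i]
    rfl
  rw [← h3]
  refine Finset.sum_congr rfl fun g _ => ?_
  simp only [N]
  rw [comp_cbar, h4]

/-- Relations with a norm-unrelated number. -/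
theorem rel_symm (hint : ∀ i, IsIntegral ℤ (π i)) (ha : 0 < a)
    (hweil : ∀ i, ∀ φ : K i →+* ℂ, ‖φ (π i)‖ ^ 2 = (p : ℝ) ^ a)
    (hA : NormsIndecomposable π) (hB : RealIntersections K) {ρ : ℂ} (hρ : NormUnrelated K ρ)
    (t : ℕ) (r : ℤ) (n : (Σ i, (K i →+* ℂ)) → ℤ)
    (hrel : (∏ x, (x.2 (π x.1)) ^ n x) * ρ ^ t = ((p ^ a : ℕ) : ℂ) ^ r) :
    ∀ i (φ : K i →+* ℂ), n ⟨i, φ⟩ = n ⟨i, ComplexEmbedding.conjugate φ⟩ := by
  classical
  intro i φ
  let ψ : ∀ i, K i →+* ℂ := Function.update (fun _ => Classical.arbitrary _) i φ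
  have hψ : ψ i = φ := Function.update_self _ _ _
  let z : K i ≃ₐ[ℚ] K i := (IsCMField.complexConj (K i)).restrictScalars ℚ
  have hz : ∀ x, z x = IsCMField.complexConj (K i) x := fun x => rfl
  have h1 := zero_of_odd_sums (z := z) (c := fun g : K i ≃ₐ[ℚ] K i =>
    n ⟨i, (ψ i).comp (g : K i →+* K i)⟩ -
      n ⟨i, ComplexEmbedding.conjugate ((ψ i).comp (g : K i →+* K i))⟩) (fun g => by
      have h2 : (ψ i).comp ((z * g : K i ≃ₐ[ℚ] K i) : K i →+* K i) =
          ComplexEmbedding.conjugate ((ψ i).comp (g : K i →+* K i)) := by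
        have h3 : z * g = g * z := mul_comm _ _
        rw [h3]
        ext x
        change (ψ i) (g (z x)) = _
        rw [hz]
        exact IsCMField.complexEmbedding_complexConj (K i) ((ψ i).comp (g : K i →+* K i)) x
      have h4 : ComplexEmbedding.conjugate ((ψ i).comp ((z * g : K i ≃ₐ[ℚ] K i) : K i →+* K i)) =
          (ψ i).comp (g : K i →+* K i) := by
        rw [h2]
        ext x
        rw [ComplexEmbedding.conjugate_coe_eq, ComplexEmbedding.conjugate_coe_eq]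
        exact Complex.conj_conj _
      rw [h4, h2]
      ring)
    (fun θ hθ => rel_sums hint ha hweil hB hρ t r n hrel ψ i z hz θ hθ
      (fun hT m hm => hA i _ hT m hm)) 1
  have h2 : (ψ i).comp ((1 : K i ≃ₐ[ℚ] K i) : K i →+* K i) = φ := by
    rw [hψ]
    rfl
  rw [h2] at h1
  exact sub_eq_zero.1 h1

end

end Run7.h16.MA
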