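import Mathlib
import Pool.Agent.Run7.h16.MA.Rel
import Pool.Agent.Y1.CT.UnrelRel

/-!
# There are no relations with norm-unrelated numbers
-/

set_option linter.unusedSectionVars false
set_option linter.unusedVariables false

namespace Run7.h16.MA

open NumberField Finset Module Polynomial Pool.Agent.H204R3.CM Pool.Agent.H977R3.CM
  Pool.Agent.TH170.CM Pool.Agent.TH170.MF Pool.Agent.TH170.FW Pool.Agent.H204R3.GP
  Pool.Agent.TH170.GS Pool.Agent.W484.HS Pool.Agent.TH170 Pool.Agent.Y137.MV Pool.Agent.Y1.KN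
  Pool.Agent.Y1.CT Run7.h16.AB
open scoped IsMulCommutative

noncomputable section

theorem normUnrelated_one {I : Type} (K : I → Type) [∀ i, Field (K i)] [∀ i, NumberField (K i)] :
    NormUnrelated K 1 := by
  refine ⟨one_ne_zero, isIntegral_one, fun i T T' hT _ => ⟨1, one_pos, ?_⟩⟩
  have h1 : IntermediateField.AdjoinSimple.gen ℚ (1 : ℂ) = 1 := by
    apply Subtype.ext
    rw [IntermediateField.AdjoinSimple.coe_gen]
    rfl
  rw [h1, map_one, one_pow]
  exact Submonoid.one_mem _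

theorem weil_of {p a : ℕ} {K : Type} [Field K] [NumberField K] [IsCMField K] {π : K}
    (hweil : ∀ φ : K →+* ℂ, ‖φ π‖ ^ 2 = (p : ℝ) ^ a) :
    π * IsCMField.complexConj K π = (p : K) ^ a := by
  let φ : K →+* ℂ := Classical.arbitrary _
  apply φ.injective
  rw [map_mul, IsCMField.complexEmbedding_complexConj, Complex.mul_conj, map_pow, map_natCast,
    Complex.normSq_eq_norm_sq, hweil φ]
  push_cast
  rfl

variable {p : ℕ} [hp : Fact p.Prime] {a : ℕ} {I : Type} [Fintype I] {K : I → Type}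
  [∀ i, Field (K i)] [∀ i, NumberField (K i)] [∀ i, IsCMField (K i)]
  [∀ i, IsAbelianGalois ℚ (K i)] {π : ∀ i, K i}

/-- There are no relations with norm-unrelated numbers. -/
theorem exactPair_norm (hint : ∀ i, IsIntegral ℤ (π i)) (ha : 0 < a)
    (hweil : ∀ i, ∀ φ : K i →+* ℂ, ‖φ (π i)‖ ^ 2 = (p : ℝ) ^ a)
    (hA : NormsIndecomposable π) (hB : RealIntersections K) (f : I → ℤ[X])
    (hf : ∀ i, IsPolyOf (π i) (f i)) (s : ℕ) (hs : 0 < s) (ρ : ℂ) (hρ : NormUnrelated K ρ) :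
    ExactPairK (fun z : Root f => (z : ℂ) ^ s) (((p ^ a : ℕ) : ℂ) ^ s) ρ := by
  classical
  intro n c N hN hn ys hlen hrel hpw
  have hw : ∀ i, π i * IsCMField.complexConj (K i) (π i) = (p : K i) ^ a := fun i =>
    weil_of (hweil i)
  have hp0 : (p : ℂ) ≠ 0 := Nat.cast_ne_zero.2 (Fact.out : p.Prime).ne_zero
  have hq0 : ((p ^ a : ℕ) : ℂ) ≠ 0 := by
    push_cast
    exact pow_ne_zero _ hp0
  have hπ0 : ∀ i, π i ≠ 0 := by
    intro i h0
    have h1 := hw i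
    rw [h0, zero_mul] at h1
    exact pow_ne_zero a (Nat.cast_ne_zero.2 (Fact.out : p.Prime).ne_zero) h1.symm
  let Y : Type := Σ i, (K i →+* ℂ)
  let w : Y → ℂ := fun y => y.2 (π y.1)
  have hw0 : ∀ y, w y ≠ 0 := fun y => (_root_.map_ne_zero _).2 (hπ0 _)
  have hz : ∀ z : Root f, ∃ y : Y, w y = z := by
    rintro ⟨z, i, hi⟩
    obtain ⟨φ, hφ⟩ := (hf i).2 z hi
    exact ⟨⟨i, φ⟩, hφ⟩
  choose idx hidx using hz
  let inv : Y → Y := fun z => ⟨z.1, ComplexEmbedding.conjugate z.2⟩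
  let cnt : Y → ℕ := fun y => (ys.map idx).count y
  have hrel1 : ((∏ y, w y ^ (s * cnt y)) * ρ) ^ N = ((((p ^ a : ℕ) : ℂ) ^ s) ^ c) ^ N := by
    rw [← hrel, prod_count idx w (fun z : Root f => (z : ℂ)) (fun z => (hidx z).symm) s ys]
  have hcnt : ∀ y : Y, cnt y = cnt (inv y) := by
    rintro ⟨i, φ⟩
    have h1 := rel_symm hint ha hweil hA hB hρ N ((s : ℤ) * c * N)
      (fun y => ((s * N : ℕ) : ℤ) * cnt y) (by
        have h2 : ∏ x : Σ i, (K i →+* ℂ), (x.2 (π x.1)) ^ (((s * N : ℕ) : ℤ) * (cnt x : ℤ)) =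
            (∏ y, w y ^ (s * cnt y)) ^ N := by
          rw [← Finset.prod_pow]
          refine Finset.prod_congr rfl fun y _ => ?_
          rw [← pow_mul, ← zpow_natCast]
          congr 1
          push_cast
          ring
        rw [h2, ← mul_pow, hrel1, ← zpow_natCast, ← zpow_natCast, ← zpow_mul, ← zpow_mul,
          mul_assoc]) i φ
    have hNt : ((s * N : ℕ) : ℤ) ≠ 0 := by exact_mod_cast (Nat.mul_pos hs hN).ne'
    have h3 := mul_left_cancel₀ hNt h1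
    exact_mod_cast h3
  -- the first element of the list
  obtain ⟨z₀, hz₀⟩ := List.exists_mem_of_length_pos (l := ys) (by omega)
  have h1 : 0 < cnt (idx z₀) := List.count_pos_iff.2 (List.mem_map_of_mem hz₀)
  rw [hcnt] at h1
  obtain ⟨z₁, hz₁, h2⟩ := List.mem_map.1 (List.count_pos_iff.1 h1)
  have hne : z₀ ≠ z₁ := by
    rintro rfl
    have h3 : (idx z₀).2 = ComplexEmbedding.conjugate (idx z₀).2 := by
      have h4 : idx z₀ = ⟨(idx z₀).1, ComplexEmbedding.conjugate (idx z₀).2⟩ := h2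
      exact eq_of_heq (Sigma.mk.inj h4).2
    exact conj_ne _ h3.symm
  have hsymm : Std.Symm (fun y y' : Root f => (y : ℂ) ^ s * (y' : ℂ) ^ s ≠
      ((p ^ a : ℕ) : ℂ) ^ s) := ⟨by
    intro x y h h'
    exact h (by rw [mul_comm]; exact h')⟩
  refine hpw.forall hz₀ hz₁ hne ?_
  have h3 : (z₁ : ℂ) = ComplexEmbedding.conjugate (idx z₀).2 (π (idx z₀).1) := by
    rw [← hidx z₁, h2]
  change (z₀ : ℂ) ^ s * (z₁ : ℂ) ^ s = _
  rw [h3, ← hidx z₀, ← mul_pow]
  congr 1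
  have h4 := congrArg (idx z₀).2 (hw (idx z₀).1)
  rw [map_mul, IsCMField.complexEmbedding_complexConj, map_pow, map_natCast] at h4
  change (idx z₀).2 (π (idx z₀).1) * _ = _
  rw [ComplexEmbedding.conjugate_coe_eq, h4]
  push_cast
  rfl

theorem noRel_norm (hint : ∀ i, IsIntegral ℤ (π i)) (ha : 0 < a)
    (hweil : ∀ i, ∀ φ : K i →+* ℂ, ‖φ (π i)‖ ^ 2 = (p : ℝ) ^ a)
    (hA : NormsIndecomposable π) (hB : RealIntersections K) {f : I → ℤ[X]}
    (hf : ∀ i, IsPolyOf (π i) (f i)) : NoRel f (p ^ a) (NormUnrelated K) :=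
  ⟨fun i => (hf i).1, normUnrelated_one K, fun s hs ρ hρ =>
    exactPair_norm hint ha hweil hA hB f hf s hs ρ hρ⟩

theorem norm_root {π : ∀ i, K i} (hweil : ∀ i, ∀ φ : K i →+* ℂ, ‖φ (π i)‖ ^ 2 = (p : ℝ) ^ a)
    {f : I → ℤ[X]} (hf : ∀ i, IsPolyOf (π i) (f i)) (i : I) (z : ℂ) (hz : aeval z (f i) = 0) :
    ‖z‖ ^ 2 = ((p ^ a : ℕ) : ℝ) := by
  obtain ⟨φ, rfl⟩ := (hf i).2 z hz
  rw [hweil]
  push_cast
  rfl

end

end Run7.h16.MA
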