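import Mathlib
import Pool.Agent.Run7.h16.AB.Defs
import Pool.Agent.Run7.h16.MA.Iso
import Pool.Agent.TH117.BL.Defs

/-!
# Weil numbers in abelian CM fields, up to Weil classes: definitions
-/

set_option autoImplicit false

namespace Run7.h16.MA

open NumberField Module Pool.Agent.W495.TA Run7.h16.AB

/-- Isomorphic subfields of `K` and `K'` are totally real. -/
def OnlyRealCommon (K K' : Type) [Field K] [NumberField K] [Field K'] [NumberField K'] : Prop :=
  ∀ (T : IntermediateField ℚ K) (T' : IntermediateField ℚ K'), AreIsomorphic T T' →
    IsTotallyReal T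

/-- The subfield `T` of `K` is imaginary quadratic, its index in `K` is six, and `p` splits in `T`:
complex conjugate embeddings of `T` define different `p`-adic places. -/
def IsSplitOfIndexSix (p : ℕ) [Fact p.Prime] (ν : PadicAlgCl p ≃+* ℂ) {K : Type} [Field K]
    [NumberField K] (T : IntermediateField ℚ K) : Prop :=
  finrank ℚ T = 2 ∧ ¬ IsTotallyReal T ∧ finrank T K = 6 ∧
    ∀ κ : T →+* ℂ, ¬ SamePlace p ν κ (ComplexEmbedding.conjugate κ)

/-- No positive power of the norm of `π` to a subfield `T` of `K` that is cyclic over `ℚ` and not
totally real is a product of elements of proper subfields of `T`, with at most one exception `T`, an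
imaginary quadratic field of index six in which `p` splits. -/
def NearlyIndecomposable (p : ℕ) [Fact p.Prime] (ν : PadicAlgCl p ≃+* ℂ) {K : Type} [Field K]
    [NumberField K] (π : K) : Prop :=
  ∃ S : Set (IntermediateField ℚ K), S.Subsingleton ∧ (∀ T ∈ S, IsSplitOfIndexSix p ν T) ∧
    ∀ T : IntermediateField ℚ K, T ∉ S → CyclicNotReal T → ∀ n : ℕ, 0 < n →
      ¬ FromSubfields (Algebra.norm T π ^ n)

/-- Each positive power of `π` generates the field `K`. -/
abbrev PowersGenerate {K : Type} [Field K] [NumberField K] (π : K) : Prop :=
  ∀ n : ℕ, 0 < n → IntermediateField.adjoin ℚ {π ^ n} = ⊤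

variable {p : ℕ} [Fact p.Prime] {ν : PadicAlgCl p ≃+* ℂ}

/-- The dimension of the factor with the index `i`, one half of the degree of its CM field. -/
noncomputable def dimOf (Z : RedAV p ν) (i : Z.X.I) : ℕ := finrank ℚ (Z.X.factor i).E / 2

/-- The abelian variety `Z` over a finite field is a product of simple abelian varieties over an
algebraic closure with endomorphism algebras the CM fields `E i`, abelian over `ℚ`. The fields
`E i` and `E i'` of two factors, not both of dimension at most three, have only totally real common
subfields. The Frobenius endomorphism `π i` of a factor of dimension at least six is nearly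
indecomposable, and its powers generate `E i`. -/
structure HasAbelianFields (Z : RedAV p ν) : Prop where
  galois : ∀ i, IsAbelianGalois ℚ (Z.X.factor i).E
  real : ∀ i i', i ≠ i' → 4 ≤ dimOf Z i → OnlyRealCommon (Z.X.factor i).E (Z.X.factor i').E
  generates : ∀ i, 6 ≤ dimOf Z i → PowersGenerate (Z.π i)
  norms : ∀ i, 6 ≤ dimOf Z i → NearlyIndecomposable p ν (Z.π i)

end Run7.h16.MA
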