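import Mathlib
import Pool.Agent.Run7.h16.MA.WDef
import Pool.Agent.Run7.h16.MA.NR
import Pool.Agent.TH170.GS.Rel

/-!
# Decoupling a factor with an abelian CM field
-/

set_option linter.unusedSectionVars false
set_option linter.unusedVariables false
set_option linter.style.haveILetI false

namespace Run7.h16.MA

open NumberField Module Pool.Agent.H204R3.CM Pool.Agent.W495.TA Pool.Agent.TH117
  Pool.Agent.TH170 Pool.Agent.W527 Run7.h16.AB
open scoped IsMulCommutative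

noncomputable section

theorem decouple_core {Γ : Type*} [Group Γ] [Fintype Γ] {ι : Type*} [Fintype ι] {A : ι → Type*}
    [∀ i, CommGroup (A i)] (r : ∀ i, Γ →* A i) (G : ∀ i, A i → ℝ) (z : ∀ i, A i)
    (hodd : ∀ i a, G i (z i * a) = - G i a) (hsum : ∀ g, ∑ i, G i (r i g) = 0) (i₀ : ι)
    (hz : ∀ i, i ≠ i₀ → ∃ h, r i₀ h = 1 ∧ r i h = z i) (g : Γ) : G i₀ (r i₀ g) = 0 := by
  classical
  let P : ι → ℝ := fun i => ∑ h : Γ, if r i₀ h = 1 then G i (r i (g * h)) else 0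
  have hP : ∀ i, i ≠ i₀ → P i = 0 := by
    intro i hi
    obtain ⟨h₀, h1, h2⟩ := hz i hi
    have h3 : P i = - P i := by
      simp only [P]
      rw [← Finset.sum_neg_distrib]
      refine (Fintype.sum_equiv (Equiv.mulRight h₀) _ _ fun h => ?_).symm
      rw [Equiv.coe_mulRight, map_mul (r i₀), h1, mul_one]
      by_cases hh : r i₀ h = 1
      · rw [if_pos hh, if_pos hh, ← mul_assoc, map_mul (r i) (g * h) h₀, h2, mul_comm _ (z i),
          hodd]
      · rw [if_neg hh, if_neg hh, neg_zero]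
    linarith
  have hsumP : ∑ i, P i = 0 := by
    simp only [P]
    rw [Finset.sum_comm]
    refine Finset.sum_eq_zero fun h _ => ?_
    by_cases hh : r i₀ h = 1
    · simp only [if_pos hh]
      exact hsum _
    · simp only [if_neg hh, Finset.sum_const_zero]
  rw [Finset.sum_eq_single i₀ (fun i _ hi => hP i hi)
    (fun h => absurd (Finset.mem_univ _) h)] at hsumP
  have h4 : P i₀ = ((Finset.univ.filter fun h => r i₀ h = 1).card : ℝ) * G i₀ (r i₀ g) := by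
    simp only [P]
    rw [← Finset.sum_filter, Finset.sum_congr rfl (g := fun _ => G i₀ (r i₀ g)),
      Finset.sum_const, nsmul_eq_mul]
    intro h hh
    rw [map_mul, (Finset.mem_filter.1 hh).2, mul_one]
  rw [h4] at hsumP
  refine (mul_eq_zero.1 hsumP).resolve_left ?_
  have h5 : 0 < (Finset.univ.filter fun h => r i₀ h = 1).card :=
    Finset.card_pos.2 ⟨1, Finset.mem_filter.2 ⟨Finset.mem_univ _, map_one _⟩⟩
  exact_mod_cast h5.ne'

theorem exists_char_sep {A : Type*} [CommGroup A] [Finite A] (B : Subgroup A) {z : A}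
    (hz : z ∉ B) : ∃ θ : A →* ℂ, (∀ b ∈ B, θ b = 1) ∧ θ z ≠ 1 := by
  classical
  have h1 : (QuotientGroup.mk z : A ⧸ B) ≠ 1 := by
    rw [Ne, QuotientGroup.eq_one_iff]
    exact hz
  have hne : NeZero (Monoid.exponent (A ⧸ B)) := ⟨Monoid.exponent_ne_zero_of_finite⟩
  have : NeZero ((Monoid.exponent (A ⧸ B) : ℕ) : ℂ) := ⟨by exact_mod_cast hne.out⟩
  obtain ⟨χ, hχ⟩ := CommGroup.exists_apply_ne_one_of_hasEnoughRootsOfUnity (A ⧸ B) ℂ h1
  refine ⟨((Units.coeHom ℂ).comp χ).comp (QuotientGroup.mk' B), fun b hb => ?_, fun h => ?_⟩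
  · have h2 : (QuotientGroup.mk' B b : A ⧸ B) = 1 := (QuotientGroup.eq_one_iff b).2 hb
    rw [MonoidHom.comp_apply, h2, map_one]
  · apply hχ
    exact Units.ext h

theorem exists_conj_trivial {K K' L : Type} [Field K] [NumberField K] [IsCMField K]
    [IsAbelianGalois ℚ K] [Field K'] [NumberField K'] [IsAbelianGalois ℚ K'] [Field L]
    [NumberField L] [IsGalois ℚ L]
    {φ₀ : K →+* L} {r : (L ≃ₐ[ℚ] L) →* (K ≃ₐ[ℚ] K)} (hrs : Function.Surjective r)
    (hr : ∀ σ x, φ₀ (r σ x) = σ (φ₀ x))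
    {φ₀' : K' →+* L} {r' : (L ≃ₐ[ℚ] L) →* (K' ≃ₐ[ℚ] K')} (hrs' : Function.Surjective r')
    (hr' : ∀ σ x, φ₀' (r' σ x) = σ (φ₀' x)) (κ : L ≃ₐ[ℚ] L)
    (hκ : ∀ x, r κ x = IsCMField.complexConj K x) (hreal : OnlyRealCommon K K') :
    ∃ h, r h = 1 ∧ r' h = r' κ := by
  classical
  by_contra hcon
  push Not at hcon
  obtain ⟨θ', h1, h2⟩ := exists_char_sep (r.ker.map r') (z := r' κ) (by
    rintro ⟨h, hh, hh'⟩
    exact hcon h hh hh')
  obtain ⟨θ, hθ⟩ := exists_descend r' r hrs θ' (fun τ hτ =>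
    h1 _ ⟨τ, hτ, rfl⟩)
  have h3 : θ (r κ) ≠ 1 := by
    have h4 : θ' (r' κ) = θ (r κ) := DFunLike.congr_fun hθ κ
    rw [← h4]
    exact h2
  exact (nonReal_iff _).1 (nonReal_fixed θ (r κ) hκ h3)
    (hreal _ _ (exists_iso hrs hr hrs' hr' θ θ' hθ.symm))

variable {p : ℕ} [hp : Fact p.Prime] {ν : PadicAlgCl p ≃+* ℂ} {Z : RedAV p ν}

/-- The slope of the image of `π i` under an embedding. -/
def dv (Z : RedAV p ν) (i : Z.X.I) (ψ : (Z.X.factor i).E →+* ℂ) : ℝ :=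
  2 * (- Real.logb p ‖ν.symm (ψ (Z.π i))‖) - Z.a

theorem dev_eq (σ : ℂ ≃+* ℂ) (i : Z.X.I) (φ : (Z.X.factor i).E →+* ℂ) :
    GS.dev Z σ ⟨i, φ⟩ = dv Z i ((σ : ℂ →+* ℂ).comp φ) := rfl

theorem dv_conj (i : Z.X.I) (ψ : (Z.X.factor i).E →+* ℂ) :
    dv Z i (ComplexEmbedding.conjugate ψ) = - dv Z i ψ := by
  have hp1 : (1 : ℝ) < p := by exact_mod_cast hp.out.one_lt
  have h0 : ψ (Z.π i) ≠ 0 := GS.eig_ne_zero (Z := Z) ⟨i, ψ⟩
  have h0' : (ComplexEmbedding.conjugate ψ) (Z.π i) ≠ 0 :=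
    GS.eig_ne_zero (Z := Z) ⟨i, ComplexEmbedding.conjugate ψ⟩
  have h1 : ψ (Z.π i) * (ComplexEmbedding.conjugate ψ) (Z.π i) = ((p : ℂ) ^ Z.a) := by
    rw [ComplexEmbedding.conjugate_coe_eq, Complex.mul_conj,
      Complex.normSq_eq_norm_sq, (Z.frob i).weil ψ]
    push_cast
    rfl
  have h2 := congrArg (fun x => Real.logb p ‖ν.symm x‖) h1
  simp only [map_mul, map_pow, norm_mul, norm_pow] at h2
  rw [Real.logb_mul (norm_ne_zero_iff.2 ((map_ne_zero ν.symm).2 h0))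
    (norm_ne_zero_iff.2 ((map_ne_zero ν.symm).2 h0')), Real.logb_pow, GS.norm_symm_p,
    Real.logb_inv, Real.logb_self_eq_one hp1] at h2
  unfold dv
  linarith

/-- A factor with an abelian CM field that has only totally real subfields in common with the
fields of the other factors has independent relations. -/
theorem decouple (hgal : ∀ i, IsAbelianGalois ℚ (Z.X.factor i).E) (i₀ : Z.X.I)
    (hreal : ∀ i, i ≠ i₀ → OnlyRealCommon (Z.X.factor i₀).E (Z.X.factor i).E)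
    (e : BL.Emb Z → ℕ) (he : BL.IsRel Z e) (σ : ℂ ≃+* ℂ) :
    ∑ φ, (e ⟨i₀, φ⟩ : ℝ) * GS.dev Z σ ⟨i₀, φ⟩ = 0 := by
  classical
  obtain ⟨L, hL1, hL2, j, hj⟩ := exists_galois (fun i => (Z.X.factor i).E)
  obtain ⟨κc, hκc⟩ := exists_lift j (starRingAut : ℂ ≃+* ℂ)
  have hκc' : ∀ x, starRingEnd ℂ (j x) = j (κc x) := hκc
  choose φ₀ hφ₀ using fun i => hj i (Classical.arbitrary ((Z.X.factor i).E →+* ℂ))
  choose rr hrs hr using fun i => exists_rr (φ₀ i)
  have hκ : ∀ i x, rr i κc x = IsCMField.complexConj (Z.X.factor i).E x := by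
    intro i x
    apply (j.comp (φ₀ i)).injective
    rw [IsCMField.complexEmbedding_complexConj]
    change j (φ₀ i (rr i κc x)) = _
    rw [hr]
    exact (hκc' _).symm
  let G : ∀ i, ((Z.X.factor i).E ≃ₐ[ℚ] (Z.X.factor i).E) → ℝ := fun i a =>
    ∑ b : ((Z.X.factor i).E ≃ₐ[ℚ] (Z.X.factor i).E),
      (e ⟨i, j.comp (em (φ₀ i) b)⟩ : ℝ) * dv Z i (j.comp (em (φ₀ i) (b * a)))
  have hG : ∀ (τ : ℂ ≃+* ℂ) (g : L ≃ₐ[ℚ] L), (∀ x, τ (j x) = j (g x)) → ∀ i,
      ∑ φ, (e ⟨i, φ⟩ : ℝ) * GS.dev Z τ ⟨i, φ⟩ = G i (rr i g) := by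
    intro τ g hτ i
    symm
    refine Fintype.sum_equiv ((emEquiv (φ₀ i)).trans (embEquiv j (hj i))) _ _ fun b => ?_
    have h1 : ((emEquiv (φ₀ i)).trans (embEquiv j (hj i))) b = j.comp (em (φ₀ i) b) := rfl
    rw [h1, dev_eq]
    have h2 : (τ : ℂ →+* ℂ).comp (j.comp (em (φ₀ i) b)) = j.comp (em (φ₀ i) (b * rr i g)) := by
      rw [← smul_em (hr i)]
      ext x
      exact hτ _
    rw [h2]
  obtain ⟨g, hg⟩ := exists_lift j σ
  rw [hG σ g hg]
  refine decouple_core rr G (fun i => rr i κc) (fun i a => ?_) (fun g => ?_) i₀ (fun i hi => ?_) g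
  · simp only [G]
    rw [← Finset.sum_neg_distrib]
    refine Finset.sum_congr rfl fun b _ => ?_
    have h1 : b * (rr i κc * a) = (b * a) * rr i κc := by
      rw [mul_comm (rr i κc), mul_assoc]
    have h2 : j.comp (em (φ₀ i) ((b * a) * rr i κc)) =
        ComplexEmbedding.conjugate (j.comp (em (φ₀ i) (b * a))) := by
      ext x
      rw [ComplexEmbedding.conjugate_coe_eq, ← smul_em (hr i)]
      exact (hκc' _).symm
    rw [h1, h2, dv_conj]
    ring
  · obtain ⟨τ, hτ⟩ := Pool.Agent.H977R3.CM.exists_aut j (g : L ≃+* L)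
    rw [← GS.sum_dev_of_isRel he τ, Fintype.sum_sigma]
    exact Finset.sum_congr rfl fun i _ => (hG τ g hτ i).symm
  · exact exists_conj_trivial (hrs i₀) (hr i₀) (hrs i) (hr i) κc (hκ i₀) (hreal i hi)

end

end Run7.h16.MA
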