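import Mathlib
import Pool.Agent.Run7.h16.MA.WDef
import Pool.Agent.Run7.h16.MA.NR
import Pool.Agent.TH170.GS.Rel

/-!
# Weil relations and elementary relations
-/

set_option linter.unusedSectionVars false
set_option linter.unusedVariables false
set_option linter.style.haveILetI false

namespace Run7.h16.MA

open NumberField Module Pool.Agent.H204R3.CM Pool.Agent.W495.TA Pool.Agent.TH117
  Pool.Agent.TH170 Pool.Agent.W527 Run7.h16.AB
open scoped IsMulCommutative

noncomputable section

section field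

variable {K : Type} [Field K] [NumberField K] (T : IntermediateField ℚ K) (κ : T →+* ℂ)

open Classical in
theorem card_ext : (Finset.univ.filter fun φ : K →+* ℂ => φ.comp (algebraMap T K) = κ).card =
    finrank T K := by
  classical
  letI := κ.toAlgebra
  have : FiniteDimensional T K := FiniteDimensional.right ℚ T K
  rw [← AlgHom.card T K ℂ, ← Finset.card_univ]
  symm
  refine Finset.card_bij (fun σ _ => (σ : K →+* ℂ)) (fun σ _ => ?_) (fun σ _ σ' _ h => ?_)
    (fun φ hφ => ?_)
  · rw [Finset.mem_filter]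
    exact ⟨Finset.mem_univ _, RingHom.ext fun x => σ.commutes x⟩
  · exact AlgHom.coe_ringHom_injective h
  · rw [Finset.mem_filter] at hφ
    exact ⟨{ φ with commutes' := fun x => RingHom.congr_fun hφ.2 x }, Finset.mem_univ _, rfl⟩

open Classical in
theorem prod_ext (x : K) : ∏ φ : K →+* ℂ with φ.comp (algebraMap T K) = κ, φ x =
    κ (Algebra.norm T x) := by
  classical
  letI := κ.toAlgebra
  have : FiniteDimensional T K := FiniteDimensional.right ℚ T K
  have h1 : algebraMap T ℂ (Algebra.norm T x) = ∏ σ : K →ₐ[T] ℂ, σ x :=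
    Algebra.norm_eq_prod_embeddings T ℂ x
  change _ = algebraMap T ℂ (Algebra.norm T x)
  rw [h1]
  symm
  refine Finset.prod_bij (fun σ _ => (σ : K →+* ℂ)) (fun σ _ => ?_) (fun σ _ σ' _ h => ?_)
    (fun φ hφ => ?_) (fun σ _ => rfl)
  · rw [Finset.mem_filter]
    exact ⟨Finset.mem_univ _, RingHom.ext fun x => σ.commutes x⟩
  · exact AlgHom.coe_ringHom_injective h
  · rw [Finset.mem_filter] at hφ
    exact ⟨{ φ with commutes' := fun x => RingHom.congr_fun hφ.2 x }, Finset.mem_univ _, rfl⟩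

theorem isCM_sub [IsCMField K] [IsAbelianGalois ℚ K] (hT : ¬ IsTotallyReal T) : IsCMField T := by
  classical
  have hTn : NonReal T := (nonReal_iff T).2 hT
  obtain ⟨x, hx, hne⟩ := hTn
  have : IsTotallyComplex T := by
    refine ⟨fun v => ?_⟩
    rw [← InfinitePlace.not_isReal_iff_isComplex]
    intro hv
    rw [InfinitePlace.isReal_iff] at hv
    obtain ⟨ψ, hψ⟩ : ∃ ψ : K →+* ℂ, ψ.comp (algebraMap T K) = v.embedding := by
      have h1 := card_ext T v.embedding
      have h2 : 0 < finrank T K := finrank_pos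
      rw [← h1] at h2
      obtain ⟨ψ, hψ⟩ := Finset.card_pos.1 h2
      exact ⟨ψ, (Finset.mem_filter.1 hψ).2⟩
    apply hne
    apply ψ.injective
    rw [IsCMField.complexEmbedding_complexConj]
    have h1 : ψ x = v.embedding ⟨x, hx⟩ := by
      rw [← hψ]
      rfl
    rw [h1]
    exact RingHom.congr_fun hv _
  infer_instance

theorem conj_ne' [IsCMField K] (hT : ¬ IsTotallyReal T) (φ : K →+* ℂ) :
    φ.comp (algebraMap T K) ≠ (ComplexEmbedding.conjugate φ).comp (algebraMap T K) := by
  intro h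
  have hTn : NonReal T := (nonReal_iff T).2 hT
  obtain ⟨x, hx, hne⟩ := hTn
  apply hne
  apply φ.injective
  rw [IsCMField.complexEmbedding_complexConj]
  exact (RingHom.congr_fun h ⟨x, hx⟩).symm

end field

variable {p : ℕ} [hp : Fact p.Prime] {ν : PadicAlgCl p ≃+* ℂ} {Z : RedAV p ν}

open Classical in
/-- The exponents of a Weil relation. -/
def wexp (Z : RedAV p ν) (i : Z.X.I) (T : IntermediateField ℚ (Z.X.factor i).E) (κ : T →+* ℂ) :
    BL.Emb Z → ℕ :=
  fun w => if ∃ φ : (Z.X.factor i).E →+* ℂ, w = ⟨i, φ⟩ ∧ φ.comp (algebraMap T _) = κ then 1 else 0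

open Classical in
theorem wexp_self (i : Z.X.I) (T : IntermediateField ℚ (Z.X.factor i).E) (κ : T →+* ℂ)
    (φ : (Z.X.factor i).E →+* ℂ) :
    wexp Z i T κ ⟨i, φ⟩ = if φ.comp (algebraMap T _) = κ then 1 else 0 := by
  unfold wexp
  congr 1
  apply propext
  constructor
  · rintro ⟨φ', h1, h2⟩
    have h3 := eq_of_heq (Sigma.mk.inj h1).2
    rw [h3]
    exact h2
  · intro h
    exact ⟨φ, rfl, h⟩

theorem wexp_of_ne (i : Z.X.I) (T : IntermediateField ℚ (Z.X.factor i).E) (κ : T →+* ℂ)
    (w : BL.Emb Z) (hw : w.1 ≠ i) : wexp Z i T κ w = 0 := by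
  unfold wexp
  rw [if_neg]
  rintro ⟨φ, rfl, -⟩
  exact hw rfl

open Classical in
theorem sum_wexp (i : Z.X.I) (T : IntermediateField ℚ (Z.X.factor i).E) (κ : T →+* ℂ) :
    ∑ w, wexp Z i T κ w = finrank T (Z.X.factor i).E := by
  rw [Fintype.sum_sigma, Finset.sum_eq_single i]
  · rw [Finset.sum_congr rfl (fun φ _ => wexp_self i T κ φ), Finset.sum_boole, Nat.cast_id]
    exact card_ext T κ
  · intro i' _ hne
    exact Finset.sum_eq_zero fun φ _ => wexp_of_ne i T κ ⟨i', φ⟩ hne
  · intro h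
    exact absurd (Finset.mem_univ _) h

open Classical in
theorem prod_wexp (i : Z.X.I) (T : IntermediateField ℚ (Z.X.factor i).E) (κ : T →+* ℂ) :
    ∏ w, BL.eig Z w ^ wexp Z i T κ w = κ (Algebra.norm T (Z.π i)) := by
  rw [Fintype.prod_sigma, Finset.prod_eq_single i]
  · rw [← prod_ext T κ, Finset.prod_filter]
    refine Finset.prod_congr rfl fun φ _ => ?_
    rw [wexp_self]
    by_cases h : φ.comp (algebraMap T _) = κ
    · rw [if_pos h, if_pos h, pow_one]
      rfl
    · rw [if_neg h, if_neg h, pow_zero]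
  · intro i' _ hne
    exact Finset.prod_eq_one fun φ _ => by rw [wexp_of_ne i T κ ⟨i', φ⟩ hne, pow_zero]
  · intro h
    exact absurd (Finset.mem_univ _) h

/-- The Weil relation belongs to the group generated by the elementary relations. -/
theorem wexp_mem (i : Z.X.I) [IsAbelianGalois ℚ (Z.X.factor i).E]
    (hgen : ∀ n : ℕ, 0 < n → IntermediateField.adjoin ℚ {Z.π i ^ n} = ⊤)
    (T : IntermediateField ℚ (Z.X.factor i).E) (hT : IsSplitOfIndexSix p ν T) (κ : T →+* ℂ)
    (hrel : BL.IsRel Z (wexp Z i T κ)) :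
    (fun w => (wexp Z i T κ w : ℤ)) ∈ AddSubgroup.closure
      {d : BL.Emb Z → ℤ | ∃ n : BL.Emb Z → ℕ, BL.IsRel Z n ∧ BL.IsElementary Z n ∧
        ∀ w, d w = n w} := by
  classical
  obtain ⟨hT2, hTr, hT6, hTs⟩ := hT
  refine AddSubgroup.subset_closure ⟨wexp Z i T κ, hrel, ?_, fun w => rfl⟩
  right
  right
  have hcm : IsCMField T := isCM_sub T hTr
  let W : BL.WeilDatum Z :=
    { K := T
      quadratic := hT2
      κ := κ
      S := {i' | i' = i}
      ι := fun i' h => (show i = i' from (show i' = i from h).symm) ▸ (algebraMap T (Z.X.factor i).E) }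
  have hpos : ∀ w : BL.Emb Z, W.IsPos w ↔
      ∃ φ : (Z.X.factor i).E →+* ℂ, w = ⟨i, φ⟩ ∧ φ.comp (algebraMap T _) = κ := by
    rintro ⟨i', φ⟩
    constructor
    · rintro ⟨h1, h2⟩
      have h3 : i' = i := h1
      subst h3
      exact ⟨φ, rfl, h2⟩
    · rintro ⟨φ', h1, h2⟩
      obtain ⟨h3, h4⟩ := Sigma.mk.inj h1
      subst h3
      rw [eq_of_heq h4]
      exact ⟨rfl, h2⟩
  refine ⟨W, fun w => ?_, ?_, ?_⟩
  · unfold wexp
    congr 1
    exact propext (hpos w).symm
  · intro w w' hw hw' _ m hm h0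
    obtain ⟨φ, rfl, hφ⟩ := (hpos w).1 hw
    obtain ⟨φ', rfl, hφ'⟩ := (hpos w').1 hw'
    have h1 : φ (Z.π i) ^ m * (ComplexEmbedding.conjugate φ) (Z.π i) ^ m =
        ((p : ℂ) ^ Z.a) ^ m := by
      rw [← mul_pow, ComplexEmbedding.conjugate_coe_eq, Complex.mul_conj,
        Complex.normSq_eq_norm_sq, (Z.frob i).weil φ]
      push_cast
      rfl
    have h2 : (φ (Z.π i) * φ' (Z.π i)) ^ m = ((p : ℂ) ^ Z.a) ^ m := h0
    have hπ0 : φ (Z.π i) ^ m ≠ 0 := by
      intro h3
      rw [h3, zero_mul] at h1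
      exact pow_ne_zero _ (pow_ne_zero _ (Nat.cast_ne_zero.2 hp.out.ne_zero)) h1.symm
    rw [mul_pow, ← h1] at h2
    have h3 := mul_left_cancel₀ hπ0 h2
    have h4 : φ' = ComplexEmbedding.conjugate φ := by
      have h5 : ∀ x ∈ IntermediateField.adjoin ℚ {Z.π i ^ m}, φ' x =
          ComplexEmbedding.conjugate φ x := by
        intro x hx
        induction hx using IntermediateField.adjoin_induction with
        | mem x hx =>
          rw [Set.mem_singleton_iff.1 hx, map_pow, map_pow]
          exact h3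
        | algebraMap x => simp only [eq_ratCast, map_ratCast]
        | add x y _ _ hx hy => rw [map_add, map_add, hx, hy]
        | inv x _ hx => rw [map_inv₀, map_inv₀, hx]
        | mul x y _ _ hx hy => rw [map_mul, map_mul, hx, hy]
      ext x
      apply h5
      rw [hgen m hm]
      exact IntermediateField.mem_top
    apply conj_ne' T hTr φ
    rw [← h4, hφ, hφ']
  · rw [sum_wexp]
    exact Or.inr ⟨hT6, hTs κ⟩

end

end Run7.h16.MA
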