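import Mathlib
import Pool.Agent.Run7.h16.MA.Weil
import Pool.Agent.Run7.h16.MA.Dec

/-!
# Weil numbers in abelian CM fields, up to Weil classes: the relations are elementary
-/

set_option linter.unusedSectionVars false
set_option linter.unusedVariables false
set_option linter.style.haveILetI false

namespace Run7.h16.MA

open NumberField Module Pool.Agent.H204R3.CM Pool.Agent.W495.TA Pool.Agent.TH117
  Pool.Agent.TH170 Pool.Agent.W527 Run7.h16.AB
open scoped IsMulCommutative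

noncomputable section

variable {p : ℕ} [hp : Fact p.Prime] {ν : PadicAlgCl p ≃+* ℂ} {Z : RedAV p ν}

/-- Exponents whose products have the right slopes form a relation. -/
theorem isRel_of_dev (e : BL.Emb Z → ℕ)
    (h : ∀ σ : ℂ ≃+* ℂ, ∑ w, (e w : ℝ) * GS.dev Z σ w = 0) : BL.IsRel Z e := by
  classical
  rcases isEmpty_or_nonempty Z.X.I with hI | hI
  · refine ⟨1, one_pos, ?_⟩
    have hE : IsEmpty (BL.Emb Z) := ⟨fun w => hI.false w.1⟩
    rw [Finset.univ_eq_empty, Finset.prod_empty, Finset.sum_empty]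
    simp
  obtain ⟨L, _, _, _, _, j, hj⟩ := Pool.Agent.W547.KB.exists_cm Z.X
  have hbij := BL.toEmb_bijective (j := j) (Z := Z) hj
  let E : Pool.Agent.W547.KB.Wt Z.X L ≃ BL.Emb Z := Equiv.ofBijective _ hbij
  let _ : Fintype (Pool.Agent.W547.KB.Wt Z.X L) := Fintype.ofEquiv _ E.symm
  refine (BL.isRel_iff (Z := Z) (j := j) hj _).2 fun g => ?_
  obtain ⟨σ, hσ⟩ := Pool.Agent.H977R3.CM.exists_aut j (g : L ≃+* L)
  have hp1 : (1 : ℝ) < p := by exact_mod_cast hp.out.one_lt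
  have hNp : ‖(p : PadicAlgCl p)‖ = (p : ℝ)⁻¹ := by
    have h2 : (p : PadicAlgCl p) = ((p : ℚ_[p]) : PadicAlgCl p) := by
      rw [map_natCast]
    rw [h2, PadicAlgCl.norm_extends, Padic.norm_p]
  have key : ∀ v : Pool.Agent.W547.KB.Wt Z.X L,
      (Nat.card (Dec p ν j) : ℝ) * GS.dev Z σ (BL.toEmb j Z v) =
        Z.a * ((BL.tw p ν j Z.X v g : ℤ) : ℝ) := by
    intro v
    have h1 := BL.norm_pow_two_card (Z := Z) (j := j) hj v g
    have hlp : Real.log p ≠ 0 := (Real.log_pos hp1).ne'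
    have h2 := congrArg (fun x => Real.log x / Real.log p) h1
    beta_reduce at h2
    rw [Real.log_zpow, Real.log_zpow, hNp, Real.log_inv, mul_div_assoc, mul_div_assoc,
      neg_div, div_self hlp] at h2
    change _ * Real.logb p _ = _ at h2
    have h3 : ν.symm (σ (BL.eig Z (BL.toEmb j Z v))) = ν.symm (j (g (v.2 (Z.π v.1)))) :=
      congrArg ν.symm (hσ (v.2 (Z.π v.1)))
    unfold GS.dev
    rw [h3]
    push_cast at h2
    linarith
  have ha : (Z.a : ℝ) ≠ 0 := Nat.cast_ne_zero.2 Z.pos.ne'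
  have h4 := h σ
  have h5 : (Z.a : ℝ) * ((∑ w : Pool.Agent.W547.KB.Wt Z.X L,
      (e (BL.toEmb j Z w) : ℤ) * BL.tw p ν j Z.X w g : ℤ) : ℝ) = 0 := by
    have h6 : ∑ w, (e w : ℝ) * GS.dev Z σ w =
        ∑ w : Pool.Agent.W547.KB.Wt Z.X L, (e (BL.toEmb j Z w) : ℝ) *
          GS.dev Z σ (BL.toEmb j Z w) := by
      rw [← Equiv.sum_comp E]
      rfl
    rw [h6] at h4
    have h7 := congrArg (fun x => (Nat.card (Dec p ν j) : ℝ) * x) h4
    simp only [mul_zero, Finset.mul_sum] at h7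
    push_cast
    rw [Finset.mul_sum, ← h7]
    refine Finset.sum_congr rfl fun w _ => ?_
    rw [mul_left_comm, ← key w]
    ring
  exact_mod_cast (mul_eq_zero.1 h5).resolve_left ha

open Classical in
/-- The restriction of exponents to the factors in a set. -/
def restr (S : Set Z.X.I) (e : BL.Emb Z → ℕ) : BL.Emb Z → ℕ := fun w => if w.1 ∈ S then e w else 0

/-- The part of the relation that belongs to one factor. -/
def part (e : BL.Emb Z → ℕ) (σ : ℂ ≃+* ℂ) (i : Z.X.I) : ℝ :=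
  ∑ φ, (e ⟨i, φ⟩ : ℝ) * GS.dev Z σ ⟨i, φ⟩

theorem sum_part {e : BL.Emb Z → ℕ} (he : BL.IsRel Z e) (σ : ℂ ≃+* ℂ) : ∑ i, part e σ i = 0 := by
  rw [← GS.sum_dev_of_isRel he σ, Fintype.sum_sigma]
  rfl

open Classical in
theorem sum_restr (S : Set Z.X.I) (e : BL.Emb Z → ℕ) (σ : ℂ ≃+* ℂ) :
    ∑ w, (restr S e w : ℝ) * GS.dev Z σ w = ∑ i, if i ∈ S then part e σ i else 0 := by
  rw [Fintype.sum_sigma]
  refine Finset.sum_congr rfl fun i _ => ?_
  unfold restr part
  by_cases h : i ∈ S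
  · simp only [if_pos h]
  · simp only [if_neg h, Nat.cast_zero, zero_mul, Finset.sum_const_zero]

/-- Omitting independent factors. -/
theorem restr_isRel {S : Set Z.X.I} {e : BL.Emb Z → ℕ} (he : BL.IsRel Z e)
    (h : ∀ i, i ∉ S → ∀ σ, part e σ i = 0) : BL.IsRel Z (restr S e) := by
  classical
  refine isRel_of_dev _ fun σ => ?_
  rw [sum_restr]
  refine Eq.trans (Finset.sum_congr rfl fun i _ => ?_) (sum_part he σ)
  by_cases hi : i ∈ S
  · rw [if_pos hi]
  · rw [if_neg hi, h i hi σ]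

/-- An independent factor. -/
theorem restr_single_isRel {i : Z.X.I} {e : BL.Emb Z → ℕ} (h : ∀ σ, part e σ i = 0) :
    BL.IsRel Z (restr {i} e) := by
  classical
  refine isRel_of_dev _ fun σ => ?_
  rw [sum_restr]
  refine Finset.sum_eq_zero fun i' _ => ?_
  by_cases hi : i' ∈ ({i} : Set Z.X.I)
  · rw [if_pos hi, Set.mem_singleton_iff.1 hi, h σ]
  · rw [if_neg hi]

/-- The group generated by the elementary relations. -/
abbrev elemGroup (Z : RedAV p ν) : AddSubgroup (BL.Emb Z → ℤ) := AddSubgroup.closure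
  {d : BL.Emb Z → ℤ | ∃ n : BL.Emb Z → ℕ, BL.IsRel Z n ∧ BL.IsElementary Z n ∧ ∀ w, d w = n w}

theorem mem_of_good {S : Set Z.X.I} (hS : BL.IsGoodSet Z S) {e : BL.Emb Z → ℕ}
    (he : BL.IsRel Z (restr S e)) : (fun w => (restr S e w : ℤ)) ∈ elemGroup Z := by
  classical
  refine AddSubgroup.subset_closure ⟨restr S e, he, Or.inr (Or.inl ⟨S, hS, fun w hw => ?_⟩),
    fun w => rfl⟩
  unfold restr at hw
  by_contra h
  exact hw (if_neg h)

theorem dev_conj (σ : ℂ ≃+* ℂ) (w : BL.Emb Z) :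
    GS.dev Z σ w + GS.dev Z σ (GS.conjE w) = 0 := by
  obtain ⟨i, φ⟩ := w
  have hp1 : (1 : ℝ) < p := by exact_mod_cast hp.out.one_lt
  have h1 : BL.eig Z ⟨i, φ⟩ * BL.eig Z (GS.conjE ⟨i, φ⟩) = ((p : ℂ) ^ Z.a) := by
    change φ (Z.π i) * (ComplexEmbedding.conjugate φ) (Z.π i) = _
    rw [ComplexEmbedding.conjugate_coe_eq, Complex.mul_conj,
      Complex.normSq_eq_norm_sq, (Z.frob i).weil φ]
    push_cast
    rfl
  have h2 := congrArg (fun x => Real.logb p ‖ν.symm (σ x)‖) h1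
  have hne : ∀ w : BL.Emb Z, ‖ν.symm (σ (BL.eig Z w))‖ ≠ 0 := fun w =>
    norm_ne_zero_iff.2 ((map_ne_zero ν.symm).2 ((map_ne_zero σ).2 (GS.eig_ne_zero w)))
  simp only [map_mul, map_pow, norm_mul, norm_pow, map_natCast] at h2
  have hNp : ‖(p : PadicAlgCl p)‖ = (p : ℝ)⁻¹ := by
    have h2 : (p : PadicAlgCl p) = ((p : ℚ_[p]) : PadicAlgCl p) := by
      rw [map_natCast]
    rw [h2, PadicAlgCl.norm_extends, Padic.norm_p]
  rw [Real.logb_mul (hne _) (hne _), Real.logb_pow, hNp, Real.logb_inv,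
    Real.logb_self_eq_one hp1] at h2
  unfold GS.dev
  change 2 * (- Real.logb p ‖ν.symm (σ (BL.eig Z ⟨i, φ⟩))‖) - _ +
    (2 * (- Real.logb p ‖ν.symm (σ (BL.eig Z (GS.conjE ⟨i, φ⟩)))‖) - _) = 0
  linarith

theorem conjE_conjE (w : BL.Emb Z) : GS.conjE (GS.conjE w) = w := by
  obtain ⟨i, φ⟩ := w
  unfold GS.conjE
  congr 1
  ext x
  rw [ComplexEmbedding.conjugate_coe_eq, ComplexEmbedding.conjugate_coe_eq]
  exact Complex.conj_conj _

/-- Symmetric exponents belong to the group. -/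
theorem mem_of_symm (d : BL.Emb Z → ℤ) (h : ∀ w, d (GS.conjE w) = d w) : d ∈ elemGroup Z := by
  classical
  refine GS.mem_of_symm (elemGroup Z) (F := fun w => some w) GS.conjE conjE_conjE ?_ ?_ ?_ ?_ d ?_
  · intro w hw
    obtain ⟨i, φ⟩ := w
    have h1 : ComplexEmbedding.conjugate φ = φ := eq_of_heq (Sigma.mk.inj hw).2
    have h2 : ComplexEmbedding.IsReal φ := h1
    have h3 : IsTotallyComplex (Z.X.factor i).E := inferInstance
    have h4 : (InfinitePlace.mk φ).IsReal := (InfinitePlace.isReal_mk_iff).2 h2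
    exact InfinitePlace.not_isReal_iff_isComplex.2 (h3.isComplex (InfinitePlace.mk φ)) h4
  · intro w hw
    exact absurd hw (by simp)
  · intro w w' z hz hz'
    have h1 := Option.some.inj hz
    have h2 := Option.some.inj hz'
    subst h1
    subst h2
    exact GS.pair_mem w (GS.conjE w) fun σ => dev_conj σ w
  · intro w z hz
    exact ⟨GS.conjE z, rfl⟩
  · intro z
    simp only [Option.some.injEq, Finset.sum_ite_eq', Finset.mem_univ, if_true]
    exact (h z).symm

end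

end Run7.h16.MA
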