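import Mathlib
import Pool.Agent.Run7.h16.MA.Elem

/-!
# Weil numbers in abelian CM fields, up to Weil classes: one factor
-/

set_option linter.unusedSectionVars false
set_option linter.unusedVariables false
set_option linter.style.haveILetI false

namespace Run7.h16.MA

open NumberField Module Pool.Agent.H204R3.CM Pool.Agent.W495.TA Pool.Agent.TH117
  Pool.Agent.TH170 Pool.Agent.W527 Run7.h16.AB
open scoped IsMulCommutative

noncomputable section

section one

variable {p : ℕ} [hp : Fact p.Prime] {K : Type} [Field K] [NumberField K] [IsCMField K]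
  [IsAbelianGalois ℚ K] {π : K} {a : ℕ}

/-- The character sums of the exponents of a relation of one Weil number. -/
theorem single_sums (hint : IsIntegral ℤ π) (ha : 0 < a)
    (hweil : ∀ φ : K →+* ℂ, ‖φ π‖ ^ 2 = (p : ℝ) ^ a) (n : (K →+* ℂ) → ℤ) (r : ℤ)
    (hrel : ∏ φ : K →+* ℂ, (φ π) ^ n φ = ((p ^ a : ℕ) : ℂ) ^ r) (ψ : K →+* ℂ)
    (z : K ≃ₐ[ℚ] K) (hz : ∀ x, z x = IsCMField.complexConj K x) (θ : (K ≃ₐ[ℚ] K) →* ℂ)
    (hθ : θ z ≠ 1)
    (hind : CyclicNotReal (IntermediateField.fixedField θ.ker) → ∀ m : ℕ, 0 < m →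
      ¬ FromSubfields (Algebra.norm (IntermediateField.fixedField θ.ker) π ^ m)) :
    ∑ g : K ≃ₐ[ℚ] K, ((n (ψ.comp (g : K →+* K)) -
      n (ComplexEmbedding.conjugate (ψ.comp (g : K →+* K))) : ℤ) : ℂ) * θ g = 0 := by
  refine rel_sums (p := p) (a := a) (I := Unit) (K := fun _ => K) (π := fun _ => π)
    (fun _ => hint) ha (fun _ => hweil) (fun i i' T T' hne _ => absurd rfl hne)
    (normUnrelated_one _) 0 r (fun x => n x.2) ?_ (fun _ => ψ) () z hz θ hθ hind
  rw [pow_zero, mul_one, Fintype.prod_sigma, Finset.univ_unique, Finset.prod_singleton]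
  exact hrel

end one

variable {p : ℕ} [hp : Fact p.Prime] {ν : PadicAlgCl p ≃+* ℂ} {Z : RedAV p ν}

theorem part_restr {i : Z.X.I} {e : BL.Emb Z → ℕ} (he : BL.IsRel Z (restr {i} e))
    (σ : ℂ ≃+* ℂ) : part e σ i = 0 := by
  classical
  have h1 := GS.sum_dev_of_isRel he σ
  rw [sum_restr, Finset.sum_eq_single i] at h1
  · rw [if_pos (Set.mem_singleton i)] at h1
    exact h1
  · intro i' _ hi
    exact if_neg (fun h => hi h)
  · intro h
    exact absurd (Finset.mem_univ _) h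

theorem prod_restr {i : Z.X.I} {e : BL.Emb Z → ℕ} (he : BL.IsRel Z (restr {i} e)) :
    ∃ s r : ℕ, 0 < s ∧ ∏ φ : (Z.X.factor i).E →+* ℂ, (φ (Z.π i)) ^ (2 * s * e ⟨i, φ⟩) =
      ((p : ℂ) ^ Z.a) ^ r := by
  classical
  obtain ⟨s, hs, h⟩ := he
  refine ⟨s, s * ∑ w, restr {i} e w, hs, ?_⟩
  rw [← h, Fintype.prod_sigma, Finset.prod_eq_single i, ← Finset.prod_pow]
  · refine Finset.prod_congr rfl fun φ _ => ?_
    have h1 : restr {i} e ⟨i, φ⟩ = e ⟨i, φ⟩ := if_pos (Set.mem_singleton i)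
    rw [h1, ← pow_mul, mul_comm (e ⟨i, φ⟩)]
    rfl
  · intro i' _ hi
    refine Finset.prod_eq_one fun φ _ => ?_
    have h1 : restr {i} e ⟨i', φ⟩ = 0 := if_neg (fun h => hi h)
    rw [h1, pow_zero]
  · intro h
    exact absurd (Finset.mem_univ _) h

/-- The character sums of the exponents of a relation of one factor. -/
theorem sums_zero {i : Z.X.I} [IsAbelianGalois ℚ (Z.X.factor i).E] {e : BL.Emb Z → ℕ}
    (he : BL.IsRel Z (restr {i} e)) (ψ : (Z.X.factor i).E →+* ℂ)
    (z : (Z.X.factor i).E ≃ₐ[ℚ] (Z.X.factor i).E)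
    (hz : ∀ x, z x = IsCMField.complexConj (Z.X.factor i).E x)
    (θ : ((Z.X.factor i).E ≃ₐ[ℚ] (Z.X.factor i).E) →* ℂ) (hθ : θ z ≠ 1)
    (hind : CyclicNotReal (IntermediateField.fixedField θ.ker) → ∀ m : ℕ, 0 < m →
      ¬ FromSubfields (Algebra.norm (IntermediateField.fixedField θ.ker) (Z.π i) ^ m)) :
    ∑ g : (Z.X.factor i).E ≃ₐ[ℚ] (Z.X.factor i).E,
      (((e ⟨i, ψ.comp (g : (Z.X.factor i).E →+* (Z.X.factor i).E)⟩ : ℤ) -
      (e ⟨i, ComplexEmbedding.conjugate (ψ.comp (g : (Z.X.factor i).E →+* (Z.X.factor i).E))⟩ : ℤ) :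
        ℤ) : ℂ) * θ g = 0 := by
  obtain ⟨s, r, hs, h⟩ := prod_restr he
  have h1 := single_sums (p := p) (Z.frob i).integral Z.pos (Z.frob i).weil
    (fun φ => 2 * s * e ⟨i, φ⟩) r (by
      rw [zpow_natCast]
      push_cast
      rw [← h]
      refine Finset.prod_congr rfl fun φ _ => ?_
      exact_mod_cast zpow_natCast (φ (Z.π i)) (2 * s * e ⟨i, φ⟩)) ψ z hz θ hθ hind
  have h2 : (2 * (s : ℂ)) * ∑ g : (Z.X.factor i).E ≃ₐ[ℚ] (Z.X.factor i).E,
      (((e ⟨i, ψ.comp (g : (Z.X.factor i).E →+* (Z.X.factor i).E)⟩ : ℤ) -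
      (e ⟨i, ComplexEmbedding.conjugate (ψ.comp (g : (Z.X.factor i).E →+* (Z.X.factor i).E))⟩ : ℤ) :
        ℤ) : ℂ) * θ g = 0 := by
    rw [← h1, Finset.mul_sum]
    refine Finset.sum_congr rfl fun g _ => ?_
    push_cast
    ring
  refine (mul_eq_zero.1 h2).resolve_left ?_
  exact mul_ne_zero two_ne_zero (by exact_mod_cast hs.ne')

/-- The exponents of a relation of a factor with a nearly indecomposable Weil number. -/
theorem nearly {i : Z.X.I} [IsAbelianGalois ℚ (Z.X.factor i).E] {e : BL.Emb Z → ℕ}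
    (he : BL.IsRel Z (restr {i} e)) (hN : NearlyIndecomposable p ν (Z.π i)) :
    (∀ φ, (e ⟨i, φ⟩ : ℤ) - e ⟨i, ComplexEmbedding.conjugate φ⟩ = 0) ∨
      ∃ T : IntermediateField ℚ (Z.X.factor i).E, IsSplitOfIndexSix p ν T ∧
        ∃ (κ : T →+* ℂ) (k : ℤ), k ≠ 0 ∧ ∀ φ, (e ⟨i, φ⟩ : ℤ) - e ⟨i, ComplexEmbedding.conjugate φ⟩ =
          k * ((wexp Z i T κ ⟨i, φ⟩ : ℤ) - wexp Z i T κ ⟨i, ComplexEmbedding.conjugate φ⟩) := by
  classical
  obtain ⟨S, hS, hS6, hind⟩ := hN
  let ψ : (Z.X.factor i).E →+* ℂ := Classical.arbitrary _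
  let z : (Z.X.factor i).E ≃ₐ[ℚ] (Z.X.factor i).E :=
    (IsCMField.complexConj (Z.X.factor i).E).restrictScalars ℚ
  have hz : ∀ x, z x = IsCMField.complexConj (Z.X.factor i).E x := fun x => rfl
  let c : ((Z.X.factor i).E ≃ₐ[ℚ] (Z.X.factor i).E) → ℤ := fun g =>
    (e ⟨i, ψ.comp (g : (Z.X.factor i).E →+* (Z.X.factor i).E)⟩ : ℤ) -
      (e ⟨i, ComplexEmbedding.conjugate (ψ.comp (g : (Z.X.factor i).E →+* (Z.X.factor i).E))⟩ : ℤ)
  have hψz : ∀ g : (Z.X.factor i).E ≃ₐ[ℚ] (Z.X.factor i).E,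
      ψ.comp ((z * g : (Z.X.factor i).E ≃ₐ[ℚ] (Z.X.factor i).E) :
        (Z.X.factor i).E →+* (Z.X.factor i).E) =
        ComplexEmbedding.conjugate (ψ.comp (g : (Z.X.factor i).E →+* (Z.X.factor i).E)) := by
    intro g
    have h3 : z * g = g * z := mul_comm _ _
    rw [h3]
    ext x
    change ψ (g (z x)) = _
    rw [hz]
    exact IsCMField.complexEmbedding_complexConj (Z.X.factor i).E
      (ψ.comp (g : (Z.X.factor i).E →+* (Z.X.factor i).E)) x
  have hcc : ∀ φ : (Z.X.factor i).E →+* ℂ,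
      ComplexEmbedding.conjugate (ComplexEmbedding.conjugate φ) = φ := by
    intro φ
    ext x
    rw [ComplexEmbedding.conjugate_coe_eq, ComplexEmbedding.conjugate_coe_eq]
    exact Complex.conj_conj _
  have hc : ∀ g, c (z * g) = - c g := by
    intro g
    simp only [c]
    rw [hψz, hcc]
    ring
  have hsurj : ∀ φ : (Z.X.factor i).E →+* ℂ, ∃ g : (Z.X.factor i).E ≃ₐ[ℚ] (Z.X.factor i).E,
      ψ.comp (g : (Z.X.factor i).E →+* (Z.X.factor i).E) = φ := by
    intro φ
    obtain ⟨σ, hσ⟩ := ComplexEmbedding.exists_comp_symm_eq_of_comp_eq (k := ℚ) ψ φ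
      (Subsingleton.elim _ _)
    exact ⟨σ.symm, hσ⟩
  have hsums : ∀ θ : ((Z.X.factor i).E ≃ₐ[ℚ] (Z.X.factor i).E) →* ℂ, θ z ≠ 1 →
      IntermediateField.fixedField θ.ker ∉ S → ∑ g, (c g : ℂ) * θ g = 0 := fun θ hθ hT =>
    sums_zero he ψ z hz θ hθ (fun hcyc m hm => hind _ hT hcyc m hm)
  by_cases hex : ∃ θ : ((Z.X.factor i).E ≃ₐ[ℚ] (Z.X.factor i).E) →* ℂ, θ z ≠ 1 ∧
      IntermediateField.fixedField θ.ker ∈ S
  · obtain ⟨θ₀, hθ₀, hT⟩ := hex
    let T : IntermediateField ℚ (Z.X.factor i).E := IntermediateField.fixedField θ₀.ker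
    obtain ⟨hT2, hTr, hT6, hTs⟩ := hS6 T hT
    have hinv : ∀ x ∈ θ₀.ker, ∀ a, c (x * a) = c a := by
      intro x hx a
      refine inv_of_odd_sums hc x (fun θ hθ hθx => hsums θ hθ fun hTθ => ?_) a
      have h1 : IntermediateField.fixedField θ.ker = IntermediateField.fixedField θ₀.ker :=
        hS hTθ hT
      have h2 := congrArg IntermediateField.fixingSubgroup h1
      rw [IntermediateField.fixingSubgroup_fixedField,
        IntermediateField.fixingSubgroup_fixedField] at h2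
      rw [← h2] at hx
      exact hθx hx
    have hidx : θ₀.ker.index = 2 := by
      have h1 : finrank ℚ T * finrank T (Z.X.factor i).E = finrank ℚ (Z.X.factor i).E :=
        Module.finrank_mul_finrank ℚ T _
      have h2 : finrank T (Z.X.factor i).E = Nat.card θ₀.ker :=
        IntermediateField.finrank_fixedField_eq_card θ₀.ker
      have h3 := Subgroup.index_mul_card θ₀.ker
      rw [IsGalois.card_aut_eq_finrank] at h3
      rw [hT2, h2, ← h3] at h1
      exact (Nat.eq_of_mul_eq_mul_right Nat.card_pos h1).symm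
    have hcos : ∀ g, g ∉ θ₀.ker → z⁻¹ * g ∈ θ₀.ker := by
      intro g hg
      have hz' : z⁻¹ ∉ θ₀.ker := by
        intro h
        have h1 := θ₀.ker.inv_mem h
        rw [inv_inv] at h1
        exact hθ₀ h1
      exact (Subgroup.mul_mem_iff_of_index_two hidx).2 ⟨fun h => absurd h hz', fun h => absurd h hg⟩
    by_cases hk : c 1 = 0
    · left
      intro φ
      obtain ⟨g, rfl⟩ := hsurj φ
      change c g = 0
      by_cases hg : g ∈ θ₀.ker
      · have h1 := hinv g hg 1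
        rw [mul_one] at h1
        rw [h1, hk]
      · have h1 := hinv _ (hcos g hg) 1
        rw [mul_one, hk] at h1
        have h2 := hc (z⁻¹ * g)
        rw [mul_inv_cancel_left, h1, neg_zero] at h2
        exact h2
    · right
      refine ⟨T, ⟨hT2, hTr, hT6, hTs⟩, ψ.comp (algebraMap T _), c 1, hk, fun φ => ?_⟩
      obtain ⟨g, rfl⟩ := hsurj φ
      change c g = _
      rw [wexp_self, wexp_self]
      have hmem : ∀ g : (Z.X.factor i).E ≃ₐ[ℚ] (Z.X.factor i).E,
          (ψ.comp (g : (Z.X.factor i).E →+* (Z.X.factor i).E)).comp (algebraMap T _) =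
            ψ.comp (algebraMap T _) ↔ g ∈ θ₀.ker := by
        intro g
        have h1 : g ∈ θ₀.ker ↔ g ∈ T.fixingSubgroup := by
          rw [IntermediateField.fixingSubgroup_fixedField]
        rw [h1, IntermediateField.mem_fixingSubgroup_iff]
        constructor
        · intro h x hx
          exact ψ.injective (RingHom.congr_fun h ⟨x, hx⟩)
        · intro h
          ext x
          exact congrArg ψ (h x x.2)
      rw [← hψz g]
      by_cases hg : g ∈ θ₀.ker
      · have h1 := hinv g hg 1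
        rw [mul_one] at h1
        have h2 : z * g ∉ θ₀.ker := fun h => by
          have h3 := θ₀.ker.mul_mem h (θ₀.ker.inv_mem hg)
          rw [mul_inv_cancel_right] at h3
          exact hθ₀ h3
        rw [if_pos ((hmem g).2 hg), if_neg (fun h => h2 ((hmem _).1 h)), h1]
        push_cast
        ring
      · have h1 := hinv _ (hcos g hg) 1
        rw [mul_one] at h1
        have h2 := hc (z⁻¹ * g)
        rw [mul_inv_cancel_left, h1] at h2
        have h3 : z * g ∈ θ₀.ker := by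
          exact (Subgroup.mul_mem_iff_of_index_two hidx).2 ⟨fun h => absurd h hθ₀,
            fun h => absurd h hg⟩
        rw [if_neg (fun h => hg ((hmem g).1 h)), if_pos ((hmem _).2 h3), h2]
        push_cast
        ring
  · push Not at hex
    left
    intro φ
    obtain ⟨g, rfl⟩ := hsurj φ
    exact zero_of_odd_sums hc (fun θ hθ => hsums θ hθ (hex θ hθ)) g

end

end Run7.h16.MA
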