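import Mathlib
import Pool.Agent.Run7.h16.MA.Elem2

/-!
# Weil numbers in abelian CM fields, up to Weil classes: main theorem
-/

set_option linter.unusedSectionVars false
set_option linter.unusedVariables false
set_option linter.style.haveILetI false

namespace Run7.h16.MA

open NumberField Module Pool.Agent.H204R3.CM Pool.Agent.W495.TA Pool.Agent.TH117
  Pool.Agent.TH170 Pool.Agent.W527 Run7.h16.AB
open scoped IsMulCommutative

noncomputable section

variable {p : ℕ} [hp : Fact p.Prime] {ν : PadicAlgCl p ≃+* ℂ} {Z : RedAV p ν}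

theorem conj_conj' {K : Type} [Field K] (φ : K →+* ℂ) :
    ComplexEmbedding.conjugate (ComplexEmbedding.conjugate φ) = φ := by
  ext x
  rw [ComplexEmbedding.conjugate_coe_eq, ComplexEmbedding.conjugate_coe_eq]
  exact Complex.conj_conj _

theorem antisym (σ : ℂ ≃+* ℂ) (i : Z.X.I) (f : ((Z.X.factor i).E →+* ℂ) → ℝ) :
    ∑ φ, (f φ - f (ComplexEmbedding.conjugate φ)) * GS.dev Z σ ⟨i, φ⟩ =
      2 * ∑ φ, f φ * GS.dev Z σ ⟨i, φ⟩ := by
  classical
  let inv : ((Z.X.factor i).E →+* ℂ) ≃ ((Z.X.factor i).E →+* ℂ) :=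
    Function.Involutive.toPerm ComplexEmbedding.conjugate conj_conj'
  have h1 : ∑ φ, f (ComplexEmbedding.conjugate φ) * GS.dev Z σ ⟨i, φ⟩ =
      - ∑ φ, f φ * GS.dev Z σ ⟨i, φ⟩ := by
    rw [← Finset.sum_neg_distrib]
    refine Fintype.sum_equiv inv _ _ fun φ => ?_
    have h2 : inv φ = ComplexEmbedding.conjugate φ := rfl
    have h3 := dev_conj σ (⟨i, φ⟩ : BL.Emb Z)
    have h4 : GS.conjE (⟨i, φ⟩ : BL.Emb Z) = ⟨i, ComplexEmbedding.conjugate φ⟩ := rfl
    rw [h4] at h3
    rw [h2, eq_neg_of_add_eq_zero_right h3]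
    ring
  simp only [sub_mul, Finset.sum_sub_distrib]
  rw [h1]
  ring

theorem wexp_isRel {i : Z.X.I} {e : BL.Emb Z → ℕ} (he : ∀ σ, part e σ i = 0)
    {T : IntermediateField ℚ (Z.X.factor i).E} {κ : T →+* ℂ} {k : ℤ} (hk : k ≠ 0)
    (h : ∀ φ, (e ⟨i, φ⟩ : ℤ) - e ⟨i, ComplexEmbedding.conjugate φ⟩ =
      k * ((wexp Z i T κ ⟨i, φ⟩ : ℤ) - wexp Z i T κ ⟨i, ComplexEmbedding.conjugate φ⟩)) :
    BL.IsRel Z (wexp Z i T κ) := by
  classical
  refine isRel_of_dev _ fun σ => ?_
  rw [Fintype.sum_sigma, Finset.sum_eq_single i]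
  · have h1 := antisym σ i (fun φ => (e ⟨i, φ⟩ : ℝ))
    have h2 := antisym σ i (fun φ => (wexp Z i T κ ⟨i, φ⟩ : ℝ))
    have h3 : ∑ φ, ((e ⟨i, φ⟩ : ℝ) - (e ⟨i, ComplexEmbedding.conjugate φ⟩ : ℝ)) *
        GS.dev Z σ ⟨i, φ⟩ = k * ∑ φ, ((wexp Z i T κ ⟨i, φ⟩ : ℝ) -
          (wexp Z i T κ ⟨i, ComplexEmbedding.conjugate φ⟩ : ℝ)) * GS.dev Z σ ⟨i, φ⟩ := by
      rw [Finset.mul_sum]
      refine Finset.sum_congr rfl fun φ _ => ?_
      have h4 : (e ⟨i, φ⟩ : ℝ) - (e ⟨i, ComplexEmbedding.conjugate φ⟩ : ℝ) =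
          k * ((wexp Z i T κ ⟨i, φ⟩ : ℝ) - (wexp Z i T κ ⟨i, ComplexEmbedding.conjugate φ⟩ : ℝ)) := by
        exact_mod_cast h φ
      rw [h4]
      ring
    rw [h1, h2] at h3
    have h5 : ∑ φ, (e ⟨i, φ⟩ : ℝ) * GS.dev Z σ ⟨i, φ⟩ = 0 := he σ
    rw [h5, mul_zero] at h3
    have h6 : (k : ℝ) * (2 * ∑ φ, (wexp Z i T κ ⟨i, φ⟩ : ℝ) * GS.dev Z σ ⟨i, φ⟩) = 0 := h3.symm
    have h7 := (mul_eq_zero.1 h6).resolve_left (by exact_mod_cast hk)
    exact (mul_eq_zero.1 h7).resolve_left two_ne_zero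
  · intro i' _ hi
    refine Finset.sum_eq_zero fun φ _ => ?_
    rw [wexp_of_ne i T κ ⟨i', φ⟩ hi, Nat.cast_zero, zero_mul]
  · intro h
    exact absurd (Finset.mem_univ _) h

/-- One factor of large dimension. -/
theorem mem_one {i : Z.X.I} [IsAbelianGalois ℚ (Z.X.factor i).E]
    (hgen : ∀ n : ℕ, 0 < n → IntermediateField.adjoin ℚ {Z.π i ^ n} = ⊤)
    (hN : NearlyIndecomposable p ν (Z.π i)) {e : BL.Emb Z → ℕ}
    (he : BL.IsRel Z (restr {i} e)) : (fun w => (restr {i} e w : ℤ)) ∈ elemGroup Z := by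
  classical
  have hself : ∀ φ, restr {i} e ⟨i, φ⟩ = e ⟨i, φ⟩ := fun φ => if_pos (Set.mem_singleton i)
  have hne : ∀ i' φ, i' ≠ i → restr {i} e ⟨i', φ⟩ = 0 := fun i' φ h => if_neg (fun h' => h h')
  rcases nearly he hN with h | ⟨T, hT, κ, k, hk, h⟩
  · refine mem_of_symm _ fun w => ?_
    obtain ⟨i', φ⟩ := w
    by_cases hi : i' = i
    · subst hi
      change (restr {i'} e ⟨i', ComplexEmbedding.conjugate φ⟩ : ℤ) = restr {i'} e ⟨i', φ⟩
      rw [hself, hself]
      exact (sub_eq_zero.1 (h φ)).symm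
    · change (restr {i} e ⟨i', ComplexEmbedding.conjugate φ⟩ : ℤ) = restr {i} e ⟨i', φ⟩
      rw [hne i' _ hi, hne i' _ hi]
  · have h1 := wexp_mem i hgen T hT κ (wexp_isRel (part_restr he) hk h)
    have h2 : (fun w => (restr {i} e w : ℤ)) =
        (fun w => (restr {i} e w : ℤ) - k * (wexp Z i T κ w : ℤ)) +
          k • (fun w => (wexp Z i T κ w : ℤ)) := by
      funext w
      simp only [Pi.add_apply, Pi.smul_apply, smul_eq_mul]
      ring
    rw [h2]
    refine (elemGroup Z).add_mem (mem_of_symm _ fun w => ?_) ((elemGroup Z).zsmul_mem h1 k)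
    obtain ⟨i', φ⟩ := w
    change (restr {i} e ⟨i', ComplexEmbedding.conjugate φ⟩ : ℤ) -
      k * (wexp Z i T κ ⟨i', ComplexEmbedding.conjugate φ⟩ : ℤ) = restr {i} e ⟨i', φ⟩ -
        k * (wexp Z i T κ ⟨i', φ⟩ : ℤ)
    by_cases hi : i' = i
    · subst hi
      rw [hself, hself]
      have h3 := h φ
      linarith
    · rw [hne i' _ hi, hne i' _ hi, wexp_of_ne i T κ ⟨i', φ⟩ hi,
        wexp_of_ne i T κ ⟨i', ComplexEmbedding.conjugate φ⟩ hi]

theorem even_finrank (K : Type) [Field K] [NumberField K] [IsCMField K] : Even (finrank ℚ K) := by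
  have h : IsTotallyComplex K := inferInstance
  rw [NumberField.IsTotallyComplex.finrank K]
  exact even_two_mul _

/-- The multiplicative relations between the Frobenius eigenvalues are products of elementary
relations. -/
theorem elementary_of_abelian (hZ : HasAbelianFields Z) : BL.HasElementaryRelations Z := by
  classical
  intro e he
  let S₀ : Set Z.X.I := {i | finrank ℚ (Z.X.factor i).E ≤ 6}
  have h8 : ∀ i, i ∉ S₀ → 4 ≤ dimOf Z i := by
    intro i hi
    have h1 : ¬ finrank ℚ (Z.X.factor i).E ≤ 6 := hi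
    obtain ⟨m, hm⟩ := even_finrank (Z.X.factor i).E
    unfold dimOf
    omega
  have hpart : ∀ i, i ∉ S₀ → ∀ σ, part e σ i = 0 := fun i hi σ =>
    decouple hZ.galois i (fun i' hi' => hZ.real i i' (Ne.symm hi') (h8 i hi)) e he σ
  have hS₀ : BL.IsGoodSet Z S₀ := by
    refine Or.inr ⟨fun i hi => hi, fun i _ k _ _ => Or.inl ?_⟩
    have := hZ.galois i
    infer_instance
  have h1 := mem_of_good hS₀ (restr_isRel he hpart)
  have h2 : ∀ i, i ∉ S₀ → (fun w => (restr {i} e w : ℤ)) ∈ elemGroup Z := by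
    intro i hi
    have hrel := restr_single_isRel (hpart i hi)
    by_cases h10 : finrank ℚ (Z.X.factor i).E ≤ 10
    · refine mem_of_good (Or.inl ⟨?_, fun i' hi' k hk hne => ?_⟩) hrel
      · rw [Finset.sum_eq_single i]
        · rw [if_pos (Set.mem_singleton i)]
          exact h10
        · intro i' _ hi'
          exact if_neg (fun h => hi' h)
        · intro h
          exact absurd (Finset.mem_univ _) h
      · exact absurd ((Set.mem_singleton_iff.1 hi').trans (Set.mem_singleton_iff.1 hk).symm) hne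
    · have h12 : 6 ≤ dimOf Z i := by
        obtain ⟨m, hm⟩ := even_finrank (Z.X.factor i).E
        unfold dimOf
        omega
      have := hZ.galois i
      exact mem_one (hZ.generates i h12) (hZ.norms i h12) hrel
  have h3 : (fun w => (e w : ℤ)) = (fun w => (restr S₀ e w : ℤ)) +
      ∑ i ∈ Finset.univ.filter (fun i => i ∉ S₀), (fun w => (restr {i} e w : ℤ)) := by
    funext w
    rw [Pi.add_apply, Finset.sum_apply]
    by_cases hw : w.1 ∈ S₀
    · rw [Finset.sum_eq_zero]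
      · rw [add_zero]
        unfold restr
        rw [if_pos hw]
      · intro i hi
        have h4 : w.1 ∉ ({i} : Set Z.X.I) := by
          intro h5
          have h6 : w.1 = i := h5
          exact (Finset.mem_filter.1 hi).2 (h6 ▸ hw)
        unfold restr
        rw [if_neg h4, Nat.cast_zero]
    · rw [Finset.sum_eq_single w.1]
      · unfold restr
        rw [if_neg hw, if_pos (Set.mem_singleton w.1), Nat.cast_zero, zero_add]
      · intro i _ hi
        unfold restr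
        rw [if_neg (fun h => hi (Set.mem_singleton_iff.1 h).symm), Nat.cast_zero]
      · intro h
        refine absurd ?_ h
        rw [Finset.mem_filter]
        exact ⟨Finset.mem_univ _, hw⟩
  rw [h3]
  exact (elemGroup Z).add_mem h1 ((elemGroup Z).sum_mem fun i hi =>
    h2 i (Finset.mem_filter.1 hi).2)

end

end Run7.h16.MA
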