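import Mathlib
import Pool.Agent.Run7.h16.MA.WDef
import Pool.Agent.W495.FM.SpreadDefs

/-!
# Schemes over finite fields generated by abelian varieties with abelian CM fields: definitions
-/

set_option autoImplicit false

namespace Run7.h16.MA

open Pool.Agent.W495.TA Pool.Agent.W495.FM Pool.Agent.TH117

/-- `Y` is isogenous, over an algebraic closure, to a product of a supersingular abelian variety and
of powers of the factors of an abelian variety `Z` with `HasAbelianFields Z`. -/
def IsAbelianFieldAV {p : ℕ} [Fact p.Prime] {ν : PadicAlgCl p ≃+* ℂ} (Y : RedAV p ν) : Prop :=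
  ∃ Z : RedAV p ν, HasAbelianFields Z ∧ BL.IsPowersTimesSupersingular Z Y

/-- The groups of motivic and of `ℓ`-adic homology of `X` are those of an abelian variety `Y` with
`IsAbelianFieldAV Y`. -/
def IsOfAbelianField {Ω V : Type} [Field Ω] [CharZero Ω] (p : ℕ) [Fact p.Prime]
    (ν : PadicAlgCl p ≃+* ℂ) (T : Homology Ω V) (X : V) : Prop :=
  ∃ (Y : RedAV p ν) (C : Cycles Ω Y) (M : Motivic C) (g : ℕ), IsAbelianFieldAV Y ∧ IsChow C ∧
    IsMotivic M ∧ IsAbelian T X M g

end Run7.h16.MA
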