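import Mathlib
import Pool.Agent.Run7.h16.MA.GenDef
import Pool.Agent.Run7.h16.MA.Elem3
import Pool.Agent.TH117.GN.Main

/-!
# Schemes over finite fields generated by abelian varieties with abelian CM fields
-/

set_option autoImplicit false

namespace Run7.h16.MA

open Pool.Agent.W495.TA Pool.Agent.W495.FM Pool.Agent.TH117 Pool.Agent.TH117.GN

variable {p : ℕ} [Fact p.Prime] {ν : PadicAlgCl p ≃+* ℂ} {Ω : Type} [Field Ω] [IsAlgClosed Ω]
  [CharZero Ω] {V : Type} {T : Homology Ω V}

theorem tb_field (hT : IsHomology T) {X : V} (hX : Generated T (IsOfAbelianField p ν T) X) :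
    TB T X := by
  refine tb_generated hT (fun X hX => ?_) hX
  obtain ⟨Y, C, M, g, ⟨Z, hZ, hY⟩, hC, hM, hX⟩ := hX
  exact tb_abelian hT hC (tateHolds_elem (elementary_of_abelian hZ) hY hC) hM hX

theorem isoAbove_field (hT : IsHomology T) (hW : HasWeights T) :
    IsoAbove T (IsOfAbelianField p ν T) := fun _ _ _ _ h hX hZ i hi =>
  iso_opened hT hW h (onto_of_dim hT hZ hi) ((tb_field hT hX).iso hT i)

theorem onto_spread_field (hT : IsHomology T) (hW : HasWeights T) {X : V}
    (hX : Spread T (Generated T (IsOfAbelianField p ν T)) X) (i : ℤ) : IsOnto T X i :=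
  onto_spread hT hW (fun _ h i => ((tb_field hT h).iso hT i).1) hX i

end Run7.h16.MA
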